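import Pool.Agent.Work.MP_2ceb02_lc.Opened

/-!
# The opened-wire theorem for circuits
-/

namespace Pool.Agent.Work.MP_2ceb02_lc

open Finset

namespace Circuit

variable {n m s : ℕ} (C : Circuit n m s)

/-- The nodes (input numbers and nodes of `S`) from which the value of the node `i` is computed
by gates outside `S`. -/
def leaves (S : Finset (Fin s)) (i : Fin s) : Finset (Fin n ⊕ Fin s) :=
  match C.node i with
  | .input j => {Sum.inl j}
  | .gate k _ pred _ => (univ : Finset (Fin k)).biUnion (fun a =>
      if (⟨pred a, (pred a).2.trans i.2⟩ : Fin s) ∈ S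
      then {Sum.inr ⟨pred a, (pred a).2.trans i.2⟩}
      else leaves S ⟨pred a, (pred a).2.trans i.2⟩)
termination_by i.1
decreasing_by exact (pred a).2

/-- Evaluation with prescribed values at the nodes of `S`. -/
def ev (S : Finset (Fin s)) (A : Fin n ⊕ Fin s → ZMod 2) (i : Fin s) : ZMod 2 :=
  match C.node i with
  | .input j => A (Sum.inl j)
  | .gate _ _ pred op => op (fun a =>
      if (⟨pred a, (pred a).2.trans i.2⟩ : Fin s) ∈ S
      then A (Sum.inr ⟨pred a, (pred a).2.trans i.2⟩)
      else ev S A ⟨pred a, (pred a).2.trans i.2⟩)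
termination_by i.1
decreasing_by exact (pred a).2

theorem ev_congr (S : Finset (Fin s)) (A B : Fin n ⊕ Fin s → ZMod 2) (i : Fin s)
    (h : ∀ w ∈ C.leaves S i, A w = B w) : C.ev S A i = C.ev S B i := by
  obtain ⟨i, hi⟩ := i
  induction i using Nat.strong_induction_on with
  | _ i ih =>
    rw [ev, ev]
    rw [leaves] at h
    split at h
    · next j hj =>
      exact h _ (mem_singleton_self _)
    · next k hk pred op hj =>
      congr 1
      funext a
      by_cases ha : (⟨pred a, (pred a).2.trans hi⟩ : Fin s) ∈ S
      · rw [if_pos ha, if_pos ha]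
        apply h
        rw [mem_biUnion]
        exact ⟨a, mem_univ _, by rw [if_pos ha]; exact mem_singleton_self _⟩
      · rw [if_neg ha, if_neg ha]
        apply ih _ (pred a).2
        intro w hw
        apply h
        rw [mem_biUnion]
        exact ⟨a, mem_univ _, by rw [if_neg ha]; exact hw⟩

theorem ev_val (S : Finset (Fin s)) (x : Fin n → ZMod 2) (i : Fin s) :
    C.ev S (Sum.elim x (C.val x)) i = C.val x i := by
  obtain ⟨i, hi⟩ := i
  induction i using Nat.strong_induction_on with
  | _ i ih =>
    rw [ev, val]
    split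
    · next j hj =>
      rw [hj]
      rfl
    · next k hk pred op hj =>
      rw [hj]
      simp only
      congr 1
      funext a
      by_cases ha : (⟨pred a, (pred a).2.trans hi⟩ : Fin s) ∈ S
      · rw [if_pos ha]; rfl
      · rw [if_neg ha]
        exact ih _ (pred a).2 _

theorem leaves_lt (S : Finset (Fin s)) (i w : Fin s) (h : Sum.inr w ∈ C.leaves S i) :
    w < i ∧ w ∈ S := by
  obtain ⟨i, hi⟩ := i
  induction i using Nat.strong_induction_on with
  | _ i ih =>
    rw [leaves] at h
    split at h
    · simp at h
    · next k hk pred op hj =>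
      rw [mem_biUnion] at h
      obtain ⟨a, _, ha⟩ := h
      by_cases hS : (⟨pred a, (pred a).2.trans hi⟩ : Fin s) ∈ S
      · rw [if_pos hS, mem_singleton] at ha
        have := Sum.inr_injective ha
        rw [this]
        exact ⟨(pred a).2, hS⟩
      · rw [if_neg hS] at ha
        obtain ⟨h1, h2⟩ := ih _ (pred a).2 _ ha
        exact ⟨h1.trans (pred a).2, h2⟩

/-- The position of a leaf among the wires. -/
noncomputable def idx (S : Finset (Fin s)) : Fin n ⊕ Fin s → ℕ
  | .inl j => j
  | .inr w => if h : w ∈ S then n + ((S.orderIsoOfFin rfl).symm ⟨w, h⟩ : Fin S.card) else 0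

/-- The node computed by the inner or output wire `v`. -/
noncomputable def nd (S : Finset (Fin s)) : Fin (S.card + m) → Fin s :=
  Fin.addCases (fun i => (S.orderIsoOfFin rfl i : Fin s)) (fun k => C.out k)

/-- The local program of a circuit and a set of opened nodes. -/
noncomputable def prog (S : Finset (Fin s)) : LocalProg n S.card m where
  leaf := fun v => (C.leaves S (C.nd S v)).image (idx S)
  fn := fun v A => C.ev S (fun z => A (idx S z)) (C.nd S v)
  leaf_lt := by
    intro v w hw
    rw [mem_image] at hw
    obtain ⟨z, hz, rfl⟩ := hw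
    rcases z with j | p
    · simp only [idx]
      omega
    · obtain ⟨h1, h2⟩ := C.leaves_lt S _ _ hz
      simp only [idx, dif_pos h2]
      refine ⟨?_, by omega⟩
      revert h1
      refine Fin.addCases (fun i => ?_) (fun k => ?_) v
      · intro h1
        simp only [nd, Fin.addCases_left] at h1
        have : (⟨p, h2⟩ : S) < S.orderIsoOfFin rfl i := h1
        have h3 := (S.orderIsoOfFin rfl).symm.lt_iff_lt.2 this
        rw [OrderIso.symm_apply_apply] at h3
        have h4 : ((S.orderIsoOfFin rfl).symm ⟨p, h2⟩ : ℕ) < i := h3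
        simp only [Fin.val_castAdd]
        omega
      · intro _
        simp only [Fin.val_natAdd]
        omega
  loc := by
    intro v A B h
    apply C.ev_congr
    intro w hw
    exact h _ (mem_image_of_mem _ hw)

theorem prog_W (S : Finset (Fin s)) (x : Fin n → ZMod 2) (v : Fin (S.card + m)) :
    (C.prog S).W x (n + v) = C.val x (C.nd S v) := by
  obtain ⟨v, hv⟩ := v
  induction v using Nat.strong_induction_on with
  | _ v ih =>
    have h1 := (C.prog S).W_eq x ⟨v, hv⟩
    simp only at h1
    rw [h1, ← C.ev_val S x]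
    apply C.ev_congr
    intro w hw
    have hlt := ((C.prog S).leaf_lt ⟨v, hv⟩ (idx S w) (mem_image_of_mem _ hw)).1
    rcases w with j | p
    · exact (C.prog S).W_input x j
    · obtain ⟨h2, h3⟩ := C.leaves_lt S _ _ hw
      simp only [idx, dif_pos h3] at hlt ⊢
      have h4 := ih ((S.orderIsoOfFin rfl).symm ⟨p, h3⟩ : Fin S.card) (by omega) (by omega)
      rw [h4]
      have h5 : C.nd S ⟨((S.orderIsoOfFin rfl).symm ⟨p, h3⟩ : Fin S.card), by omega⟩ = p := by
        have : (⟨((S.orderIsoOfFin rfl).symm ⟨p, h3⟩ : Fin S.card), by omega⟩ :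
            Fin (S.card + m)) = Fin.castAdd m ((S.orderIsoOfFin rfl).symm ⟨p, h3⟩) := rfl
        rw [this]
        simp only [nd, Fin.addCases_left]
        exact congrArg Subtype.val ((S.orderIsoOfFin rfl).apply_symm_apply ⟨p, h3⟩)
      rw [h5]
      rfl

theorem prog_out (S : Finset (Fin s)) :
    (fun (x : Fin n → ZMod 2) (k : Fin m) => (C.prog S).W x (n + (S.card + k))) = C.eval := by
  funext x k
  have := C.prog_W S x (Fin.natAdd S.card k)
  simp only [Fin.val_natAdd] at this
  rw [this]
  simp [nd, eval]

/-- The opened-wire theorem. -/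
theorem opened {N : ℕ} (hN : 0 < N) (own : Fin n → Fin N) (S : Finset (Fin s)) (l : ℕ)
    (hS : ∀ v ∈ S, (C.leaves S v).card ≤ l) (hO : ∀ k, (C.leaves S (C.out k)).card ≤ l) :
    ∃ P : Protocol N n m own, P.Correct C.eval ∧ P.Secure C.eval ∧
      P.comm = n + N * (S.card + m) ∧ P.StorageLe (n + (S.card + m) * 2 ^ l) := by
  refine ⟨(C.prog S).prot own hN, ?_, ?_, (C.prog S).comm_le own hN,
    (C.prog S).storage_le own hN l ?_⟩
  · have := (C.prog S).correct own hN
    rwa [prog_out] at this
  · have := (C.prog S).secure own hN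
    rwa [prog_out] at this
  · intro v
    refine le_trans card_image_le ?_
    refine Fin.addCases (fun i => ?_) (fun k => ?_) v
    · simp only [nd, Fin.addCases_left]
      exact hS _ (S.orderIsoOfFin rfl i).2
    · simp only [nd, Fin.addCases_right]
      exact hO k

end Circuit

end Pool.Agent.Work.MP_2ceb02_lc
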