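import Mathlib

/-!
# Boolean circuits and secure protocols in the correlated randomness model

Bits are elements of `ZMod 2`.
-/

namespace Pool.Agent.Work.MP_2ceb02_lc

open Finset

/-- A node of a circuit with `n` inputs, standing at position `i` of the topological order:
an input node carrying the number of an input, or a gate of fan-in at most two whose predecessors
stand at earlier positions. -/
inductive Node (n i : ℕ) where
  | input (j : Fin n) : Node n i
  | gate (k : ℕ) (hk : k ≤ 2) (pred : Fin k → Fin i) (op : (Fin k → ZMod 2) → ZMod 2) : Node n i

/-- A boolean circuit with `n` inputs, `m` outputs and `s` nodes, the nodes being listed in a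
topological order. Every input has at most one input node. -/
structure Circuit (n m s : ℕ) where
  node : (i : Fin s) → Node n i
  inj : ∀ i i' j, node i = Node.input j → node i' = Node.input j → i = i'
  out : Fin m → Fin s

/-- The value computed at a node. -/
def Circuit.val {n m s : ℕ} (C : Circuit n m s) (x : Fin n → ZMod 2) (i : Fin s) : ZMod 2 :=
  match C.node i with
  | .input j => x j
  | .gate _ _ pred op => op (fun a => C.val x ⟨pred a, (pred a).2.trans i.2⟩)
termination_by i.1
decreasing_by exact (pred a).2

/-- The function computed by a circuit. -/
def Circuit.eval {n m s : ℕ} (C : Circuit n m s) (x : Fin n → ZMod 2) : Fin m → ZMod 2 :=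
  fun k => C.val x (C.out k)

/-- `C.Pred i a`: the node `a` is a predecessor of the node `i`. -/
def Circuit.Pred {n m s : ℕ} (C : Circuit n m s) (i a : Fin s) : Prop :=
  ∃ k hk pred op, C.node i = Node.gate k hk pred op ∧ ∃ b : Fin k, (pred b : ℕ) = a

/-- Two nodes are adjacent in the underlying undirected graph. -/
def Circuit.Adj {n m s : ℕ} (C : Circuit n m s) (i a : Fin s) : Prop :=
  C.Pred i a ∨ C.Pred a i

/-- An `N`-party protocol in the correlated randomness model for inputs `x : Fin n → ZMod 2`,
the input `x j` belonging to the party `own j`. The dealer draws `ω : Rand` uniformly and gives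
`deal ω p` to the party `p`. In round `t` each party of `speakers t` broadcasts one bit, computed
from its own inputs, its storage and the bits broadcast in the earlier rounds. At the end every
party computes the outputs from what it knows. -/
structure Protocol (N n m : ℕ) (own : Fin n → Fin N) where
  Rand : Type
  fin : Fintype Rand
  ne : Nonempty Rand
  Store : Fin N → Type
  deal : Rand → (p : Fin N) → Store p
  rounds : ℕ
  speakers : ℕ → Finset (Fin N)
  msg : (t : ℕ) → (p : Fin N) → ({j : Fin n // own j = p} → ZMod 2) → Store p →
    (Fin t → Fin N → ZMod 2) → ZMod 2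
  output : (p : Fin N) → ({j : Fin n // own j = p} → ZMod 2) → Store p →
    (Fin rounds → Fin N → ZMod 2) → Fin m → ZMod 2

namespace Protocol

variable {N n m : ℕ} {own : Fin n → Fin N} (P : Protocol N n m own)

/-- The bit broadcast by the party `p` in round `t` (zero if it does not speak). -/
def bit (x : Fin n → ZMod 2) (ω : P.Rand) (t : ℕ) (p : Fin N) : ZMod 2 :=
  if p ∈ P.speakers t then
    P.msg t p (fun j => x j) (P.deal ω p) (fun u : Fin t => bit x ω u)
  else 0
termination_by t
decreasing_by exact u.2

/-- The transcript. -/
def transcript (x : Fin n → ZMod 2) (ω : P.Rand) : Fin P.rounds → Fin N → ZMod 2 :=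
  fun t p => P.bit x ω t p

/-- The number of bits broadcast. -/
def comm : ℕ := ∑ t ∈ range P.rounds, (P.speakers t).card

/-- What the parties of `T` see besides their inputs: their storage and the transcript. -/
def View (T : Finset (Fin N)) : Type :=
  ((p : T) → P.Store p) × (Fin P.rounds → Fin N → ZMod 2)

/-- The view of the parties of `T` in the execution with inputs `x` and dealer randomness `ω`. -/
def view (T : Finset (Fin N)) (x : Fin n → ZMod 2) (ω : P.Rand) : P.View T :=
  (fun p => P.deal ω p, P.transcript x ω)

/-- The protocol computes `f`: every party always obtains all outputs. -/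
def Correct (f : (Fin n → ZMod 2) → Fin m → ZMod 2) : Prop :=
  ∀ x ω p, P.output p (fun j => x j) (P.deal ω p) (P.transcript x ω) = f x

/-- Perfect security against semi-honest corruption of up to `N - 1` parties: for every set `T`
of parties which is not the set of all parties there is a simulator which, from the inputs of `T`
and the outputs alone, produces exactly the distribution of the view of `T`. -/
def Secure (f : (Fin n → ZMod 2) → Fin m → ZMod 2) : Prop :=
  ∀ T : Finset (Fin N), T ≠ univ →
    ∃ Sim : ({j : Fin n // own j ∈ T} → ZMod 2) → (Fin m → ZMod 2) → PMF (P.View T),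
      ∀ x, @PMF.map _ _ (P.view T x) (@PMF.uniformOfFintype P.Rand P.fin P.ne) =
        Sim (fun j => x j) (f x)

/-- The party `p` stores at most `b` bits. -/
def StorageLe (b : ℕ) : Prop :=
  ∀ p, Finite (P.Store p) ∧ Nat.card (P.Store p) ≤ 2 ^ b

end Protocol

end Pool.Agent.Work.MP_2ceb02_lc
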