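import Pool.Agent.Work.MP_2ceb02_lc.Final

/-!
# Separators satisfying a Dini condition
-/

namespace Pool.Agent.Work.MP_2ceb02_lc

open Finset MeasureTheory Filter Topology

namespace Circuit

/-- Separators of size `k η(k)` with `∫ η(u)/u du < ∞`. -/
theorem prot_dini (η : ℝ → ℝ) (h0 : ∀ u, 1 < u → 0 ≤ η u)
    (hanti : AntitoneOn η (Set.Ioi 1))
    (hint : IntegrableOn (fun u => η u / u) (Set.Ioi 1)) :
    ∃ g : ℕ → ℝ, (g =o[atTop] fun s : ℕ => (s : ℝ)) ∧
      ∀ (N n m s : ℕ), 0 < N → 1 ≤ s → ∀ (own : Fin n → Fin N) (C : Circuit n m s),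
        C.HasSeparators (fun k => k * η k) → C.Prot N own (g s) := by
  classical
  set f : ℝ → ℝ := fun u => η u / u with hf
  let a : ℕ → ℝ := fun s => 2 * ((Nat.log 2 s / 4 : ℕ) : ℝ) / 3
  let τ : ℝ → ℝ := fun x => ∫ u in Set.Ioi x, f u
  have hfpos : ∀ u, 1 < u → 0 ≤ f u := fun u hu => div_nonneg (h0 u hu) (by linarith)
  refine ⟨fun s => if Nat.log 2 s / 4 < 2 then s else s * (3 * τ (a s)), ?_, ?_⟩
  · -- little o
    have hlog : Tendsto (fun s : ℕ => Nat.log 2 s / 4) atTop atTop := by
      rw [tendsto_atTop]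
      intro b
      filter_upwards [eventually_ge_atTop (2 ^ (4 * b))] with s hs
      have : 4 * b ≤ Nat.log 2 s := Nat.le_log_of_pow_le (by norm_num) hs
      omega
    have ha : Tendsto a atTop atTop := by
      have h2 : Tendsto (fun s : ℕ => ((Nat.log 2 s / 4 : ℕ) : ℝ)) atTop atTop :=
        tendsto_natCast_atTop_atTop.comp hlog
      have h3 : Tendsto (fun s : ℕ => 2 / 3 * ((Nat.log 2 s / 4 : ℕ) : ℝ)) atTop atTop :=
        h2.const_mul_atTop (by norm_num)
      refine h3.congr (fun s => ?_)
      simp only [a]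
      ring
    have hτ : Tendsto τ atTop (𝓝 0) := by
      have h1 := intervalIntegral_tendsto_integral_Ioi 1 hint tendsto_id
      have h2 : Tendsto (fun x : ℝ => (∫ u in Set.Ioi 1, f u) - ∫ u in (1 : ℝ)..x, f u)
          atTop (𝓝 0) := by
        have := (tendsto_const_nhds (x := ∫ u in Set.Ioi 1, f u)).sub h1
        rw [sub_self] at this
        exact this
      refine h2.congr' ?_
      filter_upwards [eventually_gt_atTop (1 : ℝ)] with x hx
      have h3 : IntegrableOn f (Set.Ioc 1 x) := hint.mono_set Set.Ioc_subset_Ioi_self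
      have h4 : IntegrableOn f (Set.Ioi x) := hint.mono_set (Set.Ioi_subset_Ioi hx.le)
      have h5 : Set.Ioi (1 : ℝ) = Set.Ioc 1 x ∪ Set.Ioi x := (Set.Ioc_union_Ioi_eq_Ioi hx.le).symm
      rw [intervalIntegral.integral_of_le hx.le, h5,
        setIntegral_union (Set.Ioc_disjoint_Ioi le_rfl) measurableSet_Ioi h3 h4]
      ring
    have hlim : Tendsto (fun s : ℕ => 3 * τ (a s)) atTop (𝓝 0) := by
      have := (hτ.comp ha).const_mul 3
      rwa [mul_zero] at this
    rw [Asymptotics.isLittleO_iff_tendsto']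
    · refine hlim.congr' ?_
      have hev : ∀ᶠ s : ℕ in atTop, 2 ≤ Nat.log 2 s / 4 := hlog.eventually_ge_atTop 2
      filter_upwards [hev, eventually_gt_atTop 0] with s hs hs0
      rw [if_neg (by omega)]
      have : (s : ℝ) ≠ 0 := by exact_mod_cast hs0.ne'
      field_simp
    · filter_upwards [eventually_gt_atTop 0] with s hs h
      exfalso
      have : (s : ℝ) ≠ 0 := by exact_mod_cast hs.ne'
      exact this h
  · intro N n m s hN hs own C hsep
    beta_reduce
    by_cases hL : Nat.log 2 s / 4 < 2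
    · rw [if_pos hL]
      exact C.prot_univ hN own hs
    · rw [if_neg hL]
      push Not at hL
      set L : ℕ := Nat.log 2 s / 4 with hLdef
      have hL2 : (2 : ℝ) ≤ L := by exact_mod_cast hL
      have ha : a s = 2 * L / 3 := rfl
      have ha1 : 1 < 2 * (L : ℝ) / 3 := by linarith
      let φ : ℝ → ℝ := fun t => 3 * ∫ u in Set.Ioc (2 * (L : ℝ) / 3) t, f u
      have hIoc : ∀ t, IntegrableOn f (Set.Ioc (2 * (L : ℝ) / 3) t) := fun t =>
        hint.mono_set (Set.Ioc_subset_Ioi_self.trans (Set.Ioi_subset_Ioi ha1.le))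
      have hnn : ∀ t, 0 ≤ ∫ u in Set.Ioc (2 * (L : ℝ) / 3) t, f u := fun t =>
        setIntegral_nonneg measurableSet_Ioc (fun u hu => hfpos u (ha1.trans hu.1))
      have key := C.prot_of_phi hN own hs L (by omega) (by omega) (fun k => k * η k) φ ?_ ?_ ?_
        hsep
      · refine Prot.mono C key ?_
        apply mul_le_mul_of_nonneg_left _ (Nat.cast_nonneg _)
        apply mul_le_mul_of_nonneg_left _ (by norm_num)
        rw [ha]
        apply setIntegral_mono_set (hint.mono_set (Set.Ioi_subset_Ioi ha1.le))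
        · rw [EventuallyLE, ae_restrict_iff' measurableSet_Ioi]
          exact ae_of_all _ (fun u hu => hfpos u (ha1.trans hu))
        · exact Set.Ioc_subset_Ioi_self.eventuallyLE
      · intro x y _ hxy
        apply mul_le_mul_of_nonneg_left _ (by norm_num)
        apply setIntegral_mono_set (hIoc y)
        · rw [EventuallyLE, ae_restrict_iff' measurableSet_Ioc]
          exact ae_of_all _ (fun u hu => hfpos u (ha1.trans hu.1))
        · exact (Set.Ioc_subset_Ioc_right hxy).eventuallyLE
      · intro x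
        exact mul_nonneg (by norm_num) (hnn x)
      · intro k hk
        have hkL : (L : ℝ) < k := by exact_mod_cast hk
        have hk0 : (0 : ℝ) < k := by linarith
        have h1 : 2 * (L : ℝ) / 3 ≤ 2 * k / 3 := by linarith
        have h2 : 2 * (k : ℝ) / 3 ≤ k := by linarith
        have hsub : Set.Ioc (2 * (k : ℝ) / 3) k ⊆ Set.Ioc (2 * (L : ℝ) / 3) k :=
          Set.Ioc_subset_Ioc_left h1
        have hi : IntegrableOn f (Set.Ioc (2 * (k : ℝ) / 3) k) := (hIoc k).mono_set hsub
        have h3 : ∫ u in Set.Ioc (2 * (L : ℝ) / 3) (k : ℝ), f u =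
            (∫ u in Set.Ioc (2 * (L : ℝ) / 3) (2 * (k : ℝ) / 3), f u) +
              ∫ u in Set.Ioc (2 * (k : ℝ) / 3) k, f u := by
          rw [← Set.Ioc_union_Ioc_eq_Ioc h1 h2,
            setIntegral_union (Set.Ioc_disjoint_Ioc_of_le le_rfl) measurableSet_Ioc (hIoc _) hi]
        have h4 : η k / k * volume.real (Set.Ioc (2 * (k : ℝ) / 3) k) ≤
            ∫ u in Set.Ioc (2 * (k : ℝ) / 3) k, f u := by
          apply setIntegral_ge_of_const_le_real measurableSet_Ioc (by simp) _ hi
          intro u hu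
          have hu1 : 1 < u := by linarith [hu.1]
          have hk1 : (1 : ℝ) < k := by linarith
          have e1 : η k ≤ η u := hanti hu1 hk1 hu.2
          have e2 : 0 ≤ η k := h0 _ hk1
          exact div_le_div₀ (h0 u hu1) e1 (by linarith) hu.2
        rw [Real.volume_real_Ioc_of_le h2] at h4
        have h5 : η k / k * (k - 2 * k / 3) = η k / 3 := by field_simp; ring
        rw [h5] at h4
        simp only [φ]
        rw [h3]
        nlinarith

end Circuit

end Pool.Agent.Work.MP_2ceb02_lc
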