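import Pool.Agent.Work.MP_2ceb02_lc.Sep

/-!
# Rates
-/

namespace Pool.Agent.Work.MP_2ceb02_lc

open Finset

theorem Protocol.StorageLe.mono {N n m : ℕ} {own : Fin n → Fin N} {P : Protocol N n m own}
    {a b : ℕ} (h : P.StorageLe a) (hab : a ≤ b) : P.StorageLe b :=
  fun p => ⟨(h p).1, (h p).2.trans (Nat.pow_le_pow_right (by norm_num) hab)⟩

/-- A correct and secure protocol with given communication and storage. -/
def Circuit.Prot {n m s : ℕ} (C : Circuit n m s) (N : ℕ) (own : Fin n → Fin N) (g : ℝ) : Prop :=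
  ∃ P : Protocol N n m own, P.Correct C.eval ∧ P.Secure C.eval ∧
    (P.comm : ℝ) ≤ n + N * (m + g) ∧ P.StorageLe (n + 4 * (s + m) * s)

namespace Circuit

variable {n m s : ℕ} (C : Circuit n m s)

theorem Prot.mono {N : ℕ} {own : Fin n → Fin N} {g g' : ℝ} (h : C.Prot N own g) (hg : g ≤ g') :
    C.Prot N own g' := by
  obtain ⟨P, h1, h2, h3, h4⟩ := h
  refine ⟨P, h1, h2, h3.trans ?_, h4⟩
  have : (0 : ℝ) ≤ N := Nat.cast_nonneg _
  nlinarith

theorem prot_univ {N : ℕ} (hN : 0 < N) (own : Fin n → Fin N) (hs : 1 ≤ s) :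
    C.Prot N own s := by
  obtain ⟨P, h1, h2, h3, h4⟩ := C.protocol_of_pieces hN own univ (fun _ => ∅) 0
    (fun a ha => absurd (mem_univ a) ha) (fun a ha => absurd (mem_univ a) ha)
  refine ⟨P, h1, h2, ?_, h4.mono ?_⟩
  · rw [h3]
    push_cast
    simp only [card_univ, Fintype.card_fin]
    linarith
  · simp only [card_univ, Fintype.card_fin]
    have : s + m ≤ (s + m) * s := Nat.le_mul_of_pos_right _ hs
    norm_num
    nlinarith

theorem prot_of_phi {N : ℕ} (hN : 0 < N) (own : Fin n → Fin N) (hs : 1 ≤ s)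
    (L : ℕ) (hL : 1 ≤ L) (hLs : 4 * L ≤ Nat.log 2 s) (σ φ : ℝ → ℝ)
    (hφ : ∀ a b, 0 ≤ a → a ≤ b → φ a ≤ φ b) (h0 : ∀ a, 0 ≤ φ a)
    (hσ : ∀ k : ℕ, L < k → k * φ (2 * k / 3) + σ k ≤ k * φ k)
    (hsep : C.HasSeparators σ) : C.Prot N own (s * φ s) := by
  obtain ⟨S, _, lab, a1, a2, a3⟩ := C.exists_pieces L hL σ φ hφ h0 hσ hsep univ
  obtain ⟨P, h1, h2, h3, h4⟩ := C.protocol_of_pieces hN own S lab L
    (fun a ha => a1 a (mem_univ _) ha) (fun a ha b hb => a2 a (mem_univ _) ha b (mem_univ _) hb)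
  refine ⟨P, h1, h2, ?_, h4.mono ?_⟩
  · rw [h3]
    push_cast
    simp only [card_univ, Fintype.card_fin] at a3
    have : (0 : ℝ) ≤ N := Nat.cast_nonneg _
    nlinarith
  · have hS : S.card ≤ s := by simpa using card_le_univ S
    have hp : 2 ^ (4 * L + 2) ≤ 4 * s := by
      calc 2 ^ (4 * L + 2) = 4 * 2 ^ (4 * L) := by ring
        _ ≤ 4 * 2 ^ (Nat.log 2 s) := by
          exact Nat.mul_le_mul_left _ (Nat.pow_le_pow_right (by norm_num) hLs)
        _ ≤ 4 * s := Nat.mul_le_mul_left _ (Nat.pow_log_le_self 2 (by omega))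
    have : (S.card + m) * 2 ^ (4 * L + 2) ≤ (s + m) * (4 * s) :=
      Nat.mul_le_mul (by omega) hp
    linarith

theorem log_le (s L : ℕ) (hL : L = Nat.log 2 s / 4) (hL1 : 1 ≤ L) :
    Real.log s ≤ 8 * L := by
  have hs : s ≠ 0 := by
    rintro rfl
    simp at hL
    omega
  have h1 : s < 2 ^ (Nat.log 2 s + 1) := Nat.lt_pow_succ_log_self (by norm_num) s
  have h2 : Nat.log 2 s + 1 ≤ 8 * L := by omega
  have h3 : (s : ℝ) ≤ 2 ^ (8 * L) := by
    have : s ≤ 2 ^ (8 * L) := h1.le.trans (Nat.pow_le_pow_right (by norm_num) h2)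
    exact_mod_cast this
  calc Real.log s ≤ Real.log (2 ^ (8 * L)) :=
        Real.log_le_log (by positivity) h3
    _ = (8 * L : ℕ) * Real.log 2 := by rw [Real.log_pow]
    _ ≤ (8 * L : ℕ) * 1 := by
        apply mul_le_mul_of_nonneg_left _ (Nat.cast_nonneg _)
        have := Real.log_two_lt_d9
        linarith
    _ = 8 * L := by push_cast; ring

/-- Power type separators. -/
theorem prot_power (c e : ℝ) (hc : 0 ≤ c) (he : 0 < e) : ∃ K : ℝ, 0 ≤ K ∧
    ∀ (N n m s : ℕ), 0 < N → 3 ≤ s → ∀ (own : Fin n → Fin N) (C : Circuit n m s),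
      C.HasSeparators (fun k => c * k ^ (1 - e)) → C.Prot N own (K * s / (Real.log s) ^ e) := by
  set δ : ℝ := (2 / 3 : ℝ) ^ (-e) - 1 with hδ
  have hδ0 : 0 < δ := by
    have : 1 < (2 / 3 : ℝ) ^ (-e) :=
      Real.one_lt_rpow_of_pos_of_lt_one_of_neg (by norm_num) (by norm_num) (by linarith)
    linarith
  set B : ℝ := c / δ with hB
  have hB0 : 0 ≤ B := div_nonneg hc hδ0.le
  refine ⟨B * 12 ^ e + (Real.log 16) ^ e, by positivity, ?_⟩
  intro N n m s hN hs own C hsep
  have hlogs : 0 < Real.log s := Real.log_pos (by exact_mod_cast (by omega))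
  have hle : 0 < Real.log s ^ e := Real.rpow_pos_of_pos hlogs _
  have hs0 : (0 : ℝ) ≤ s := Nat.cast_nonneg _
  have h12 : (0 : ℝ) ≤ 12 ^ e := by positivity
  by_cases h16 : s < 16
  · refine Prot.mono C (C.prot_univ hN own (by omega)) ?_
    rw [le_div_iff₀ hle]
    have : Real.log s ^ e ≤ Real.log 16 ^ e := by
      apply Real.rpow_le_rpow hlogs.le _ he.le
      apply Real.log_le_log (by positivity)
      exact_mod_cast h16.le
    nlinarith [mul_nonneg hB0 h12, mul_nonneg hs0 (mul_nonneg hB0 h12),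
      mul_le_mul_of_nonneg_left this hs0]
  · push Not at h16
    set L : ℕ := Nat.log 2 s / 4 with hL
    have hlog4 : 4 ≤ Nat.log 2 s := by
      have : Nat.log 2 16 ≤ Nat.log 2 s := Nat.log_mono_right h16
      have h : Nat.log 2 16 = 4 := by
        rw [show (16 : ℕ) = 2 ^ 4 by norm_num, Nat.log_pow (by norm_num)]
      omega
    have hL1 : 1 ≤ L := by omega
    have hL0 : (0 : ℝ) < 2 * L / 3 := by
      have : (0 : ℝ) < L := by exact_mod_cast hL1
      positivity
    have hlogL := log_le s L hL hL1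
    let φ : ℝ → ℝ := fun t => if t ≤ 2 * L / 3 then 0
      else B * ((2 * L / 3 : ℝ) ^ (-e) - t ^ (-e))
    have hpos : ∀ t : ℝ, ¬ t ≤ 2 * L / 3 → 0 ≤ B * ((2 * L / 3 : ℝ) ^ (-e) - t ^ (-e)) := by
      intro t ht
      push Not at ht
      apply mul_nonneg hB0
      have := Real.rpow_le_rpow_of_nonpos hL0 ht.le (by linarith : -e ≤ 0)
      linarith
    have key := C.prot_of_phi hN own (by omega) L hL1 (by omega)
      (fun k => c * k ^ (1 - e)) φ ?_ ?_ ?_ hsep
    · refine Prot.mono C key ?_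
      have h1 : φ s ≤ B * (2 * L / 3 : ℝ) ^ (-e) := by
        simp only [φ]
        split_ifs with h
        · exact mul_nonneg hB0 (Real.rpow_nonneg hL0.le _)
        · apply mul_le_mul_of_nonneg_left _ hB0
          have : 0 ≤ (s : ℝ) ^ (-e) := Real.rpow_nonneg hs0 _
          linarith
      have h2 : (2 * L / 3 : ℝ) ^ (-e) ≤ (Real.log s / 12) ^ (-e) := by
        apply Real.rpow_le_rpow_of_nonpos (by positivity) _ (by linarith)
        linarith
      have h3 : (Real.log s / 12) ^ (-e) = 12 ^ e / Real.log s ^ e := by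
        rw [Real.div_rpow hlogs.le (by norm_num), Real.rpow_neg hlogs.le,
          Real.rpow_neg (by norm_num)]
        field_simp
      rw [h3] at h2
      have h4 : (s : ℝ) * φ s ≤ s * (B * (12 ^ e / Real.log s ^ e)) :=
        mul_le_mul_of_nonneg_left (h1.trans (mul_le_mul_of_nonneg_left h2 hB0)) hs0
      refine h4.trans ?_
      have h5 : (s : ℝ) * (B * (12 ^ e / Real.log s ^ e)) = B * 12 ^ e * s / Real.log s ^ e := by
        ring
      rw [h5]
      apply div_le_div_of_nonneg_right _ hle.le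
      apply mul_le_mul_of_nonneg_right _ hs0
      have : 0 ≤ Real.log 16 ^ e := Real.rpow_nonneg (Real.log_nonneg (by norm_num)) _
      linarith
    · intro a b ha hab
      simp only [φ]
      split_ifs with h1 h2
      · exact le_rfl
      · exact hpos b h2
      · exact absurd (hab.trans ‹_›) h1
      · push Not at h1
        apply mul_le_mul_of_nonneg_left _ hB0
        have := Real.rpow_le_rpow_of_nonpos (hL0.trans h1) hab (by linarith : -e ≤ 0)
        linarith
    · intro a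
      simp only [φ]
      split_ifs with h1
      · exact le_rfl
      · exact hpos a h1
    · intro k hk
      have hkL : (L : ℝ) < k := by exact_mod_cast hk
      have hk0 : (0 : ℝ) < k := lt_of_le_of_lt (Nat.cast_nonneg _) hkL
      have c1 : ¬ (2 * (k : ℝ) / 3 ≤ 2 * L / 3) := by push Not; linarith
      have c2 : ¬ ((k : ℝ) ≤ 2 * L / 3) := by
        push Not
        have : (0 : ℝ) ≤ L := Nat.cast_nonneg _
        linarith
      simp only [φ]
      rw [if_neg c1, if_neg c2]
      have e1 : (2 * (k : ℝ) / 3) ^ (-e) = (δ + 1) * (k : ℝ) ^ (-e) := by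
        rw [hδ, show 2 * (k : ℝ) / 3 = (2 / 3) * k by ring,
          Real.mul_rpow (by norm_num) hk0.le]
        ring
      have e2 : (k : ℝ) ^ (1 - e) = k * (k : ℝ) ^ (-e) := by
        rw [show (1 - e : ℝ) = 1 + (-e) by ring, Real.rpow_add hk0, Real.rpow_one]
      rw [e1, e2]
      have e3 : c = B * δ := by rw [hB]; field_simp
      rw [e3]
      apply le_of_eq
      ring

end Circuit

end Pool.Agent.Work.MP_2ceb02_lc
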