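import Pool.Agent.Work.MP_2ceb02_lc.Final

/-!
# Barely sublinear separators
-/

namespace Pool.Agent.Work.MP_2ceb02_lc

open Finset

theorem bernoulli_neg (u δ e : ℝ) (hu : 0 < u) (hδ : 0 ≤ δ) (hδu : δ < u) (he : 0 < e) :
    u ^ (-e) + e * δ * u ^ (-(1 + e)) ≤ (u - δ) ^ (-e) := by
  have h1 : 0 < 1 - δ / u := by
    rw [sub_pos, div_lt_one hu]; exact hδu
  have h2 : u - δ = u * (1 - δ / u) := by field_simp
  rw [h2, Real.mul_rpow hu.le h1.le]
  have h3 : 1 + e * (δ / u) ≤ (1 - δ / u) ^ (-e) := by
    rw [Real.rpow_def_of_pos h1]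
    have h4 : Real.log (1 - δ / u) ≤ -(δ / u) := by
      have := Real.log_le_sub_one_of_pos h1
      linarith
    have h5 : e * (δ / u) ≤ Real.log (1 - δ / u) * (-e) := by nlinarith
    have h6 := Real.add_one_le_exp (e * (δ / u))
    have h7 := Real.exp_le_exp.2 h5
    linarith
  have h8 : u ^ (-(1 + e)) = u ^ (-e) / u := by
    rw [show -(1 + e) = -e - 1 by ring, Real.rpow_sub hu, Real.rpow_one]
  rw [h8]
  have h9 : 0 ≤ u ^ (-e) := Real.rpow_nonneg hu.le _
  have := mul_le_mul_of_nonneg_left h3 h9
  calc u ^ (-e) + e * δ * (u ^ (-e) / u) = u ^ (-e) * (1 + e * (δ / u)) := by ring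
    _ ≤ _ := this

namespace Circuit

/-- Barely sublinear separators. -/
theorem prot_loglog (c e : ℝ) (hc : 0 ≤ c) (he : 0 < e) : ∃ K : ℝ, 0 ≤ K ∧
    ∀ (N n m s : ℕ), 0 < N → 3 ≤ s → ∀ (own : Fin n → Fin N) (C : Circuit n m s),
      C.HasSeparators (fun k => c * k / (Real.log k) ^ (1 + e)) →
      C.Prot N own (K * s / (Real.log (Real.log s)) ^ e) := by
  set δ : ℝ := Real.log (3 / 2) with hδ
  have hδ0 : 0 < δ := Real.log_pos (by norm_num)
  set B : ℝ := c / (e * δ) with hB
  have hB0 : 0 ≤ B := by positivity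
  refine ⟨B * 2 ^ e + (Real.log 144) ^ e, by positivity, ?_⟩
  intro N n m s hN hs own C hsep
  have hlogs1 : 1 < Real.log s := by
    have h1 : Real.exp 1 < 3 := by
      have := Real.exp_one_lt_d9
      linarith
    have h2 : (3 : ℝ) ≤ s := by exact_mod_cast hs
    rw [Real.lt_log_iff_exp_lt (by linarith)]
    linarith
  have hlogs : 0 < Real.log s := by linarith
  have hll : 0 < Real.log (Real.log s) := Real.log_pos hlogs1
  have hle : 0 < Real.log (Real.log s) ^ e := Real.rpow_pos_of_pos hll _
  have hs0 : (0 : ℝ) ≤ s := Nat.cast_nonneg _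
  have h12 : (0 : ℝ) ≤ 2 ^ e := by positivity
  by_cases h144 : Real.log s < 144
  · refine Prot.mono C (C.prot_univ hN own (by omega)) ?_
    rw [le_div_iff₀ hle]
    have : Real.log (Real.log s) ^ e ≤ Real.log 144 ^ e := by
      apply Real.rpow_le_rpow hll.le _ he.le
      exact Real.log_le_log hlogs h144.le
    nlinarith [mul_nonneg hB0 h12, mul_nonneg hs0 (mul_nonneg hB0 h12),
      mul_le_mul_of_nonneg_left this hs0]
  · push Not at h144
    set L : ℕ := Nat.log 2 s / 4 with hL
    have hlog4 : 4 ≤ Nat.log 2 s := by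
      by_contra hcon
      push Not at hcon
      have h1 : s < 2 ^ (Nat.log 2 s + 1) := Nat.lt_pow_succ_log_self (by norm_num) s
      have h2 : s < 16 := lt_of_lt_of_le h1 (by
        calc 2 ^ (Nat.log 2 s + 1) ≤ 2 ^ 4 := Nat.pow_le_pow_right (by norm_num) (by omega)
          _ = 16 := by norm_num)
      have h3 : (s : ℝ) < 16 := by exact_mod_cast h2
      have h4 : Real.log s ≤ s - 1 := Real.log_le_sub_one_of_pos (by
        have : (0 : ℕ) < s := by omega
        exact_mod_cast this)
      linarith
    have hL1 : 1 ≤ L := by omega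
    have hlogL := log_le s L hL hL1
    have hL18 : (18 : ℝ) ≤ L := by linarith
    have hL0 : (1 : ℝ) < 2 * L / 3 := by linarith
    have hM : 0 < Real.log (2 * L / 3) := Real.log_pos hL0
    let φ : ℝ → ℝ := fun t => if t ≤ 2 * L / 3 then 0
      else B * (Real.log (2 * L / 3 : ℝ) ^ (-e) - Real.log t ^ (-e))
    have hpos : ∀ t : ℝ, ¬ t ≤ 2 * L / 3 →
        0 ≤ B * (Real.log (2 * L / 3 : ℝ) ^ (-e) - Real.log t ^ (-e)) := by
      intro t ht
      push Not at ht
      apply mul_nonneg hB0
      have h1 := Real.log_le_log (by linarith) ht.le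
      have := Real.rpow_le_rpow_of_nonpos hM h1 (by linarith : -e ≤ 0)
      linarith
    have key := C.prot_of_phi hN own (by omega) L hL1 (by omega)
      (fun k => c * k / (Real.log k) ^ (1 + e)) φ ?_ ?_ ?_ hsep
    · refine Prot.mono C key ?_
      have h1 : φ s ≤ B * Real.log (2 * L / 3 : ℝ) ^ (-e) := by
        simp only [φ]
        split_ifs with h
        · exact mul_nonneg hB0 (Real.rpow_nonneg hM.le _)
        · apply mul_le_mul_of_nonneg_left _ hB0
          have : 0 ≤ Real.log (s : ℝ) ^ (-e) := Real.rpow_nonneg hlogs.le _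
          linarith
      have h2 : Real.log (2 * L / 3 : ℝ) ^ (-e) ≤ (Real.log (Real.log s) / 2) ^ (-e) := by
        apply Real.rpow_le_rpow_of_nonpos (by positivity) _ (by linarith)
        have g1 : Real.log (Real.log s / 12) ≤ Real.log (2 * L / 3) :=
          Real.log_le_log (by positivity) (by linarith)
        have g2 : Real.log (Real.log s / 12) = Real.log (Real.log s) - Real.log 12 :=
          Real.log_div hlogs.ne' (by norm_num)
        have g3 : 2 * Real.log 12 ≤ Real.log (Real.log s) := by
          have : Real.log ((12 : ℝ) ^ 2) ≤ Real.log (Real.log s) :=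
            Real.log_le_log (by norm_num) (by norm_num; exact h144)
          rwa [Real.log_pow] at this
        linarith
      have h3 : (Real.log (Real.log s) / 2) ^ (-e) = 2 ^ e / Real.log (Real.log s) ^ e := by
        rw [Real.div_rpow hll.le (by norm_num), Real.rpow_neg hll.le,
          Real.rpow_neg (by norm_num)]
        field_simp
      rw [h3] at h2
      have h4 : (s : ℝ) * φ s ≤ s * (B * (2 ^ e / Real.log (Real.log s) ^ e)) :=
        mul_le_mul_of_nonneg_left (h1.trans (mul_le_mul_of_nonneg_left h2 hB0)) hs0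
      refine h4.trans ?_
      have h5 : (s : ℝ) * (B * (2 ^ e / Real.log (Real.log s) ^ e)) =
          B * 2 ^ e * s / Real.log (Real.log s) ^ e := by
        ring
      rw [h5]
      apply div_le_div_of_nonneg_right _ hle.le
      apply mul_le_mul_of_nonneg_right _ hs0
      have : 0 ≤ Real.log 144 ^ e := Real.rpow_nonneg (Real.log_nonneg (by norm_num)) _
      linarith
    · intro a b ha hab
      simp only [φ]
      split_ifs with h1 h2
      · exact le_rfl
      · exact hpos b h2
      · exact absurd (hab.trans ‹_›) h1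
      · push Not at h1
        apply mul_le_mul_of_nonneg_left _ hB0
        have g1 : 1 < a := hL0.trans h1
        have := Real.rpow_le_rpow_of_nonpos (Real.log_pos g1)
          (Real.log_le_log (by linarith) hab) (by linarith : -e ≤ 0)
        linarith
    · intro a
      simp only [φ]
      split_ifs with h1
      · exact le_rfl
      · exact hpos a h1
    · intro k hk
      have hkL : (L : ℝ) < k := by exact_mod_cast hk
      have hk0 : (0 : ℝ) < k := lt_of_le_of_lt (Nat.cast_nonneg _) hkL
      have c1 : ¬ (2 * (k : ℝ) / 3 ≤ 2 * L / 3) := by push Not; linarith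
      have c2 : ¬ ((k : ℝ) ≤ 2 * L / 3) := by
        push Not
        linarith
      simp only [φ]
      rw [if_neg c1, if_neg c2]
      have e1 : Real.log (2 * (k : ℝ) / 3) = Real.log k - δ := by
        rw [hδ, ← Real.log_div hk0.ne' (by norm_num)]
        congr 1
        ring
      have hlk : 0 < Real.log k := Real.log_pos (by linarith)
      have hlk2 : δ < Real.log k := by
        have : 0 < Real.log (2 * (k : ℝ) / 3) := Real.log_pos (by linarith)
        linarith
      have e2 : c * (k : ℝ) / Real.log k ^ (1 + e) =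
          k * (B * (e * δ * Real.log k ^ (-(1 + e)))) := by
        rw [Real.rpow_neg hlk.le, hB]
        field_simp
      rw [e1, e2]
      have e3 := bernoulli_neg (Real.log k) δ e hlk hδ0.le hlk2 he
      have e4 := mul_le_mul_of_nonneg_left e3 (mul_nonneg hk0.le hB0)
      nlinarith [e4]

end Circuit

end Pool.Agent.Work.MP_2ceb02_lc
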