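import Pool.Agent.Work.MP_2ceb02_lc.Defs

/-!
# Local programs and the opened-wire protocol
-/

namespace Pool.Agent.Work.MP_2ceb02_lc

open Finset

/-- A local program: `n` input wires, `σ` inner wires and `m` output wires; every inner or output
wire is a function of the wires in a small set of earlier non-output wires. -/
structure LocalProg (n σ m : ℕ) where
  leaf : Fin (σ + m) → Finset ℕ
  fn : Fin (σ + m) → (ℕ → ZMod 2) → ZMod 2
  leaf_lt : ∀ v, ∀ w ∈ leaf v, w < n + v ∧ w < n + σ
  loc : ∀ v A B, (∀ w ∈ leaf v, A w = B w) → fn v A = fn v B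

namespace LocalProg

variable {n σ m : ℕ} (L : LocalProg n σ m)

/-- The value of wire `t`. -/
def W (x : Fin n → ZMod 2) (t : ℕ) : ZMod 2 :=
  if h : t < n then x ⟨t, h⟩
  else if h' : t - n < σ + m then
    L.fn ⟨t - n, h'⟩ (fun w => if w < t then W x w else 0)
  else 0
termination_by t

theorem W_input (x : Fin n → ZMod 2) (j : Fin n) : L.W x j = x j := by
  rw [W]; simp

theorem W_eq (x : Fin n → ZMod 2) (v : Fin (σ + m)) : L.W x (n + v) = L.fn v (L.W x) := by
  rw [W]
  have h1 : ¬ (n + (v : ℕ) < n) := by omega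
  have h2 : n + (v : ℕ) - n = v := by omega
  rw [dif_neg h1]
  have h3 : n + (v : ℕ) - n < σ + m := by rw [h2]; exact v.2
  rw [dif_pos h3]
  have h4 : (⟨n + (v : ℕ) - n, h3⟩ : Fin (σ + m)) = v := Fin.ext h2
  rw [h4]
  apply L.loc
  intro w hw
  rw [if_pos (L.leaf_lt v w hw).1]

/-- Extension of an assignment by zero. -/
def ext (F : Finset ℕ) (a : F → ZMod 2) : ℕ → ZMod 2 :=
  fun w => if h : w ∈ F then a ⟨w, h⟩ else 0

theorem ext_mem {F : Finset ℕ} (a : F → ZMod 2) {w : ℕ} (h : w ∈ F) : ext F a w = a ⟨w, h⟩ := by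
  simp [ext, h]

/-- The masks, extended by zero. -/
def R (r : Fin (n + σ) → ZMod 2) : ℕ → ZMod 2 :=
  fun w => if h : w < n + σ then r ⟨w, h⟩ else 0

/-- The masked table of wire `v`. -/
def Tb (r : Fin (n + σ) → ZMod 2) (v : Fin (σ + m)) (a : L.leaf v → ZMod 2) : ZMod 2 :=
  L.fn v (fun w => ext (L.leaf v) a w + R r w) + R r (n + v)

theorem two_self (a : ZMod 2) : a + a = 0 := CharTwo.add_self_eq_zero a

theorem Tb_eq (x : Fin n → ZMod 2) (r : Fin (n + σ) → ZMod 2) (v : Fin (σ + m))
    (a : L.leaf v → ZMod 2) (ha : ∀ w : L.leaf v, a w = L.W x w + R r w) :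
    L.Tb r v a = L.W x (n + v) + R r (n + v) := by
  unfold Tb
  rw [L.W_eq]
  congr 1
  apply L.loc
  intro w hw
  rw [ext_mem a hw, ha ⟨w, hw⟩, add_assoc, two_self, add_zero]

variable {N : ℕ} (own : Fin n → Fin N)

/-- The randomness of the dealer. -/
def Rnd (N : ℕ) : Type :=
  {ω : (Fin (n + σ) → ZMod 2) × ((v : Fin (σ + m)) → Fin N → (L.leaf v → ZMod 2) → ZMod 2) //
    ∀ v a, ∑ p, ω.2 v p a = L.Tb ω.1 v a}

noncomputable instance instFintypeRnd : Fintype (L.Rnd N) := by
  classical
  unfold Rnd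
  infer_instance

theorem nonempty_rnd (hN : 0 < N) : Nonempty (L.Rnd N) := by
  classical
  refine ⟨⟨(0, fun v p a => if p = ⟨0, hN⟩ then L.Tb 0 v a else 0), ?_⟩⟩
  intro v a
  simp

/-- The protocol. -/
noncomputable def prot (hN : 0 < N) : Protocol N n m own where
  Rand := L.Rnd N
  fin := L.instFintypeRnd
  ne := L.nonempty_rnd hN
  Store := fun p => ({j : Fin n // own j = p} → ZMod 2) ×
    ((v : Fin (σ + m)) → (L.leaf v → ZMod 2) → ZMod 2)
  deal := fun ω p => (fun j => ω.1.1 ⟨j.1, by omega⟩, fun v => ω.1.2 v p)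
  rounds := n + (σ + m)
  speakers := fun t => if h : t < n then {own ⟨t, h⟩} else univ
  msg := fun t p xp st hist =>
    if h : ∃ h : t < n, own ⟨t, h⟩ = p then
      xp ⟨⟨t, h.1⟩, h.2⟩ + st.1 ⟨⟨t, h.1⟩, h.2⟩
    else if h' : n ≤ t ∧ t - n < σ + m then
      st.2 ⟨t - n, h'.2⟩ (fun w => ∑ q, hist ⟨w, by
        have := (L.leaf_lt ⟨t - n, h'.2⟩ w.1 w.2).1
        have h2 := h'.1
        simp only at this
        omega⟩ q)
    else 0
  output := fun _ _ _ tr k => ∑ q, tr ⟨n + (σ + k), by omega⟩ q

theorem bit_input (hN : 0 < N) (x : Fin n → ZMod 2) (ω : L.Rnd N) (j : Fin n) (p : Fin N) :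
    (L.prot own hN).bit x ω j p = if own j = p then x j + R ω.1.1 j else 0 := by
  rw [Protocol.bit]
  have hs : (L.prot own hN).speakers j = {own j} := by
    simp [prot]
  rw [hs]
  by_cases h : own j = p
  · subst h
    have hj : (j : ℕ) < n + σ := by omega
    simp [prot, R, hj]
  · have : p ∉ ({own j} : Finset (Fin N)) := by
      simp only [mem_singleton]
      exact fun h' => h h'.symm
    rw [if_neg this, if_neg h]

theorem bit_wire (hN : 0 < N) (x : Fin n → ZMod 2) (ω : L.Rnd N) (v : Fin (σ + m)) (p : Fin N) :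
    (L.prot own hN).bit x ω (n + v) p =
      ω.1.2 v p (fun w => ∑ q, (L.prot own hN).bit x ω w q) := by
  rw [Protocol.bit]
  have h1 : ¬ (n + (v : ℕ) < n) := by omega
  have hs : (L.prot own hN).speakers (n + v) = univ := by
    simp [prot]
  rw [hs, if_pos (mem_univ p)]
  have h2 : n + (v : ℕ) - n = v := by omega
  have h3 : n ≤ n + (v : ℕ) ∧ n + (v : ℕ) - n < σ + m := ⟨by omega, by rw [h2]; exact v.2⟩
  have h4 : ¬ ∃ h : n + (v : ℕ) < n, own ⟨n + (v : ℕ), h⟩ = p := fun h => h1 h.1
  have key : ∀ (v' : Fin (σ + m)) (hv : v' = v),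
      ω.1.2 v' p (fun w => ∑ q, (L.prot own hN).bit x ω w q) =
      ω.1.2 v p (fun w => ∑ q, (L.prot own hN).bit x ω w q) := by
    intro v' hv; subst hv; rfl
  rw [← key ⟨n + (v : ℕ) - n, h3.2⟩ (Fin.ext h2)]
  simp only [prot, dif_neg h4, dif_pos h3]

theorem sum_bit (hN : 0 < N) (x : Fin n → ZMod 2) (ω : L.Rnd N) (t : ℕ) (ht : t < n + (σ + m)) :
    ∑ q, (L.prot own hN).bit x ω t q = L.W x t + R ω.1.1 t := by
  induction t using Nat.strong_induction_on with
  | _ t ih =>
    by_cases h : t < n
    · have := fun q => L.bit_input own hN x ω ⟨t, h⟩ q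
      simp only at this
      rw [Finset.sum_congr rfl (fun q _ => this q), Finset.sum_ite_eq, if_pos (mem_univ _)]
      rw [← L.W_input x ⟨t, h⟩]
    · obtain ⟨v, rfl⟩ : ∃ v : Fin (σ + m), t = n + v :=
        ⟨⟨t - n, by omega⟩, by simp only; omega⟩
      rw [Finset.sum_congr rfl (fun q _ => L.bit_wire own hN x ω v q), ω.2 v]
      apply L.Tb_eq
      intro w
      have hw := L.leaf_lt v w w.2
      exact ih w hw.1 (by omega)

theorem correct (hN : 0 < N) : (L.prot own hN).Correct (fun x k => L.W x (n + (σ + k))) := by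
  intro x ω p
  funext k
  have h := L.sum_bit own hN x ω (n + (σ + k)) (by omega)
  have hR : R ω.1.1 (n + (σ + (k : ℕ))) = 0 := by
    simp only [R]
    rw [dif_neg (by omega)]
  rw [hR, add_zero] at h
  exact h

theorem map_uniform {α β : Type*} [Fintype α] [Nonempty α] (e : α ≃ α) (g : α → β) :
    (PMF.uniformOfFintype α).map (g ∘ e) = (PMF.uniformOfFintype α).map g := by
  rw [← PMF.map_comp]
  congr 1
  ext b
  rw [PMF.map_apply, tsum_eq_single (e.symm b)]
  · simp
  · intro a ha
    rw [if_neg]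
    intro h
    apply ha
    rw [h]; simp

/-- Replacing the input `x` by `x'`: the change of the randomness of the dealer. -/
noncomputable def shift (x x' : Fin n → ZMod 2) (h : Fin N) (ω : L.Rnd N) : L.Rnd N :=
  ⟨(fun i => ω.1.1 i + (L.W x i + L.W x' i), fun v p a =>
    if p = h then ω.1.2 v p a + (L.Tb ω.1.1 v a +
      L.Tb (fun i => ω.1.1 i + (L.W x i + L.W x' i)) v a) else ω.1.2 v p a), by
    intro v a
    simp only
    have h1 : ∀ p, (if p = h then ω.1.2 v p a + (L.Tb ω.1.1 v a +
        L.Tb (fun i => ω.1.1 i + (L.W x i + L.W x' i)) v a) else ω.1.2 v p a) =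
        ω.1.2 v p a + (if p = h then (L.Tb ω.1.1 v a +
        L.Tb (fun i => ω.1.1 i + (L.W x i + L.W x' i)) v a) else 0) := by
      intro p
      split_ifs <;> simp
    rw [Finset.sum_congr rfl (fun p _ => h1 p), Finset.sum_add_distrib, ω.2 v a,
      Finset.sum_ite_eq', if_pos (mem_univ _), ← add_assoc, two_self, zero_add]⟩

theorem shift_shift (x x' : Fin n → ZMod 2) (h : Fin N) (ω : L.Rnd N) :
    L.shift x x' h (L.shift x x' h ω) = ω := by
  apply Subtype.ext
  have e1 : (L.shift x x' h (L.shift x x' h ω)).1.1 = ω.1.1 := by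
    funext i
    simp only [shift]
    rw [add_assoc, two_self, add_zero]
  refine Prod.ext e1 ?_
  funext v p a
  have e2 : (fun i => (L.shift x x' h ω).1.1 i + (L.W x i + L.W x' i)) = ω.1.1 := e1
  show (if p = h then (L.shift x x' h ω).1.2 v p a + (L.Tb (L.shift x x' h ω).1.1 v a +
      L.Tb (fun i => (L.shift x x' h ω).1.1 i + (L.W x i + L.W x' i)) v a)
      else (L.shift x x' h ω).1.2 v p a) = ω.1.2 v p a
  rw [e2]
  by_cases hp : p = h
  · rw [if_pos hp]
    simp only [shift, if_pos hp]
    have := two_self (L.Tb ω.1.1 v a)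
    have h2 := two_self (L.Tb (fun i => ω.1.1 i + (L.W x i + L.W x' i)) v a)
    linear_combination this + h2
  · rw [if_neg hp]
    simp only [shift, if_neg hp]

/-- `shift` as an equivalence. -/
noncomputable def shiftEquiv (x x' : Fin n → ZMod 2) (h : Fin N) : L.Rnd N ≃ L.Rnd N where
  toFun := L.shift x x' h
  invFun := L.shift x x' h
  left_inv := L.shift_shift x x' h
  right_inv := L.shift_shift x x' h

theorem R_shift (x x' : Fin n → ZMod 2) (h : Fin N) (ω : L.Rnd N) (t : ℕ) :
    R (L.shift x x' h ω).1.1 t =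
      if t < n + σ then R ω.1.1 t + (L.W x t + L.W x' t) else 0 := by
  by_cases ht : t < n + σ
  · simp [R, shift, ht]
  · simp [R, ht]

theorem sum_shift (x x' : Fin n → ZMod 2) (h : Fin N) (ω : L.Rnd N) (t : ℕ)
    (ho : n + σ ≤ t → L.W x t = L.W x' t) :
    L.W x' t + R (L.shift x x' h ω).1.1 t = L.W x t + R ω.1.1 t := by
  rw [R_shift]
  split_ifs with ht
  · linear_combination two_self (L.W x' t)
  · have : R ω.1.1 t = 0 := by simp [R, ht]
    rw [this, ho (by omega)]

theorem bit_shift (hN : 0 < N) (x x' : Fin n → ZMod 2) (h : Fin N) (ω : L.Rnd N)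
    (ho : ∀ k : Fin m, L.W x (n + (σ + k)) = L.W x' (n + (σ + k)))
    (t : ℕ) (ht : t < n + (σ + m)) (p : Fin N) :
    (L.prot own hN).bit x' (L.shift x x' h ω) t p = (L.prot own hN).bit x ω t p := by
  have ho' : ∀ t, t < n + (σ + m) → n + σ ≤ t → L.W x t = L.W x' t := by
    intro t ht h1
    have := ho ⟨t - (n + σ), by omega⟩
    simp only at this
    have e : n + (σ + (t - (n + σ))) = t := by omega
    rwa [e] at this
  induction t using Nat.strong_induction_on generalizing p with
  | _ t ih =>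
    by_cases hn : t < n
    · have h1 := L.bit_input own hN x ω ⟨t, hn⟩ p
      have h2 := L.bit_input own hN x' (L.shift x x' h ω) ⟨t, hn⟩ p
      simp only at h1 h2
      rw [h1, h2]
      split_ifs with hp
      · have := L.sum_shift x x' h ω t (ho' t ht)
        rw [← L.W_input x ⟨t, hn⟩, ← L.W_input x' ⟨t, hn⟩]
        exact this
      · rfl
    · obtain ⟨v, rfl⟩ : ∃ v : Fin (σ + m), t = n + v :=
        ⟨⟨t - n, by omega⟩, by simp only; omega⟩
      rw [L.bit_wire own hN x ω v p, L.bit_wire own hN x' (L.shift x x' h ω) v p]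
      have harg : (fun w : L.leaf v => ∑ q, (L.prot own hN).bit x' (L.shift x x' h ω) w q) =
          fun w : L.leaf v => ∑ q, (L.prot own hN).bit x ω w q := by
        funext w
        have hw := L.leaf_lt v w w.2
        exact Finset.sum_congr rfl (fun q _ => ih w hw.1 (by omega) q)
      rw [harg]
      by_cases hp : p = h
      · simp only [shift, if_pos hp]
        have t1 : L.Tb ω.1.1 v (fun w : L.leaf v => ∑ q, (L.prot own hN).bit x ω w q) =
            L.W x (n + v) + R ω.1.1 (n + v) := by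
          apply L.Tb_eq
          intro w
          have hw := L.leaf_lt v w w.2
          exact L.sum_bit own hN x ω w (by omega)
        have t2 : L.Tb (fun i => ω.1.1 i + (L.W x i + L.W x' i)) v
            (fun w : L.leaf v => ∑ q, (L.prot own hN).bit x ω w q) =
            L.W x' (n + v) + R (L.shift x x' h ω).1.1 (n + v) := by
          apply L.Tb_eq x'
          intro w
          have hw := L.leaf_lt v w w.2
          rw [L.sum_bit own hN x ω w (by omega)]
          exact (L.sum_shift x x' h ω w (fun h' => by omega)).symm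
        rw [t1, t2, L.sum_shift x x' h ω (n + v) (ho' _ ht), two_self, add_zero]
      · simp only [shift, if_neg hp]

theorem view_shift (hN : 0 < N) (x x' : Fin n → ZMod 2) (T : Finset (Fin N)) (h : Fin N)
    (hT : h ∉ T) (ω : L.Rnd N)
    (hx : ∀ j, own j ∈ T → x j = x' j)
    (ho : ∀ k : Fin m, L.W x (n + (σ + k)) = L.W x' (n + (σ + k))) :
    (L.prot own hN).view T x' (L.shift x x' h ω) = (L.prot own hN).view T x ω := by
  refine Prod.ext ?_ ?_
  · funext p
    refine Prod.ext ?_ ?_
    · funext j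
      show (L.shift x x' h ω).1.1 ⟨j.1, by omega⟩ = ω.1.1 ⟨j.1, by omega⟩
      simp only [shift]
      have hj : own j.1 ∈ T := by rw [j.2]; exact p.2
      rw [L.W_input, L.W_input, hx _ hj, two_self, add_zero]
    · funext v
      show (L.shift x x' h ω).1.2 v p = ω.1.2 v p
      funext a
      have hp : (p : Fin N) ≠ h := fun e => hT (e ▸ p.2)
      simp only [shift, if_neg hp]
  · funext t p
    exact L.bit_shift own hN x x' h ω ho t t.2 p

theorem secure (hN : 0 < N) : (L.prot own hN).Secure (fun x k => L.W x (n + (σ + k))) := by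
  classical
  intro T hT
  obtain ⟨h, hh⟩ : ∃ h, h ∉ T := by
    by_contra hc
    push Not at hc
    exact hT (Finset.eq_univ_iff_forall.2 hc)
  let _ : Fintype (L.prot own hN).Rand := (L.prot own hN).fin
  have _ : Nonempty (L.prot own hN).Rand := (L.prot own hN).ne
  refine ⟨fun y o => if hc : ∃ x : Fin n → ZMod 2, (fun j : {j // own j ∈ T} => x j) = y ∧
      (fun k : Fin m => L.W x (n + (σ + k))) = o
    then (PMF.uniformOfFintype (L.prot own hN).Rand).map ((L.prot own hN).view T hc.choose)
    else (PMF.uniformOfFintype (L.prot own hN).Rand).map ((L.prot own hN).view T 0), ?_⟩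
  intro x
  have hc : ∃ x₁ : Fin n → ZMod 2, (fun j : {j // own j ∈ T} => x₁ j) =
      (fun j : {j // own j ∈ T} => x j) ∧
      (fun k : Fin m => L.W x₁ (n + (σ + k))) = (fun k : Fin m => L.W x (n + (σ + k))) :=
    ⟨x, rfl, rfl⟩
  beta_reduce
  rw [dif_pos hc]
  set x' := hc.choose with hx'
  have hspec := hc.choose_spec
  have e : (L.prot own hN).view T x = (L.prot own hN).view T x' ∘ (L.shiftEquiv x x' h) := by
    funext ω
    refine (L.view_shift own hN x x' T h hh ω ?_ ?_).symm
    · intro j hj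
      exact (congrFun hspec.1 ⟨j, hj⟩).symm
    · intro k
      exact (congrFun hspec.2 k).symm
  rw [e]
  have _ : Nonempty (L.Rnd N) := L.nonempty_rnd hN
  exact map_uniform (L.shiftEquiv x x' h) _

theorem comm_le (hN : 0 < N) : (L.prot own hN).comm = n + N * (σ + m) := by
  show ∑ t ∈ range (n + (σ + m)), _ = _
  rw [Finset.sum_range_add]
  congr 1
  · rw [Finset.sum_congr rfl (g := fun _ => 1)]
    · simp
    · intro t ht
      have : t < n := mem_range.1 ht
      simp [prot, this]
  · rw [Finset.sum_congr rfl (g := fun _ => N)]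
    · simp [mul_comm]
    · intro t _
      simp [prot]

theorem storage_le (hN : 0 < N) (l : ℕ) (hl : ∀ v, (L.leaf v).card ≤ l) :
    (L.prot own hN).StorageLe (n + (σ + m) * 2 ^ l) := by
  intro p
  refine ⟨by show Finite (_ × _); infer_instance, ?_⟩
  show Nat.card (({j : Fin n // own j = p} → ZMod 2) ×
    ((v : Fin (σ + m)) → (L.leaf v → ZMod 2) → ZMod 2)) ≤ _
  rw [Nat.card_prod, Nat.card_pi, Nat.card_pi, pow_add]
  refine Nat.mul_le_mul ?_ ?_
  · simp only [Nat.card_zmod, Finset.prod_const]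
    refine Nat.pow_le_pow_right (by norm_num) ?_
    refine le_trans (Finset.card_le_univ _) ?_
    refine le_trans (Fintype.card_subtype_le _) ?_
    simp
  · calc ∏ v : Fin (σ + m), Nat.card ((L.leaf v → ZMod 2) → ZMod 2)
        ≤ ∏ _v : Fin (σ + m), 2 ^ 2 ^ l := by
          refine Finset.prod_le_prod' ?_
          intro v _
          rw [Nat.card_pi]
          simp only [Nat.card_zmod, Finset.prod_const, Finset.card_univ]
          refine Nat.pow_le_pow_right (by norm_num) ?_
          simp only [Fintype.card_pi, ZMod.card, Finset.prod_const, Finset.card_univ,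
            Fintype.card_coe]
          exact Nat.pow_le_pow_right (by norm_num) (hl v)
      _ = 2 ^ ((σ + m) * 2 ^ l) := by
          rw [Finset.prod_const, Finset.card_univ, Fintype.card_fin, ← pow_mul, mul_comm]

end LocalProg

end Pool.Agent.Work.MP_2ceb02_lc
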