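import Pool.Agent.Work.MP_2ceb02_lc.Region
import Pool.Agent.Work.MP_2ceb02_lc.Final

/-!
# Power type weighted separators
-/

namespace Pool.Agent.Work.MP_2ceb02_lc

open Finset

theorem log_le' (s : ℕ) (hs : s ≠ 0) : Real.log s ≤ 4 * ((Nat.log 2 s / 2 : ℕ) + 1 : ℝ) / 2 := by
  have h1 : s < 2 ^ (Nat.log 2 s + 1) := Nat.lt_pow_succ_log_self (by norm_num) s
  have h2 : Nat.log 2 s + 1 ≤ 2 * (Nat.log 2 s / 2) + 2 := by omega
  have h3 : (s : ℝ) ≤ 2 ^ (2 * (Nat.log 2 s / 2) + 2) := by
    have : s ≤ 2 ^ (2 * (Nat.log 2 s / 2) + 2) :=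
      h1.le.trans (Nat.pow_le_pow_right (by norm_num) h2)
    exact_mod_cast this
  have hs0 : (0 : ℝ) < s := by exact_mod_cast Nat.pos_of_ne_zero hs
  calc Real.log s ≤ Real.log (2 ^ (2 * (Nat.log 2 s / 2) + 2)) := Real.log_le_log hs0 h3
    _ = ((2 * (Nat.log 2 s / 2) + 2 : ℕ) : ℝ) * Real.log 2 := by rw [Real.log_pow]
    _ ≤ ((2 * (Nat.log 2 s / 2) + 2 : ℕ) : ℝ) * 1 := by
        apply mul_le_mul_of_nonneg_left _ (Nat.cast_nonneg _)
        have := Real.log_two_lt_d9
        linarith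
    _ = 4 * ((Nat.log 2 s / 2 : ℕ) + 1 : ℝ) / 2 := by push_cast; ring

namespace Circuit

/-- Power type weighted separators. -/
theorem prot_weighted (c e : ℝ) (hc : 0 ≤ c) (he : 0 < e) (he1 : e < 1) : ∃ K : ℝ, 0 ≤ K ∧
    ∀ (N n m s : ℕ), 0 < N → 3 ≤ s → ∀ (own : Fin n → Fin N) (C : Circuit n m s),
      C.HasWeightedSeparators (fun k => c * k ^ (1 - e)) →
      C.Prot N own (K * (n + s / (Real.log s) ^ (e / (1 - e)))) := by
  have h1e : 0 < 1 - e := by linarith
  set q : ℝ := e / (1 - e) with hq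
  have hq0 : 0 < q := div_pos he h1e
  set δ : ℝ := (4 / 3 : ℝ) ^ e - 1 with hδ
  have hδ0 : 0 < δ := by
    have : 1 < (4 / 3 : ℝ) ^ e := Real.one_lt_rpow (by norm_num) he
    linarith
  set η : ℝ := 3 * δ / (32 * (c + 1)) with hη
  have hη0 : 0 < η := by positivity
  have hcη : c * η ≤ 3 * δ / 32 := by
    rw [hη, mul_div_assoc', div_le_div_iff₀ (by positivity) (by norm_num)]
    nlinarith
  -- threshold
  set r₀ : ℝ := (32 * (c + 1) / (3 * δ)) ^ (1 / e) with hr₀
  have hr₀0 : 0 < r₀ := by positivity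
  set l₀ : ℝ := r₀ ^ (1 - e) / η with hl₀
  have hl₀0 : 0 < l₀ := by positivity
  refine ⟨8 / (3 * δ) * (c * η) + 8 / (3 * δ) * (c * (η / 4) ^ (-q)) +
    (4 * (l₀ + 2)) ^ q, by positivity, ?_⟩
  intro N n m s hN hs own C hsep
  have hs0 : (0 : ℝ) < s := by
    have : 0 < s := by omega
    exact_mod_cast this
  have hn0 : (0 : ℝ) ≤ n := Nat.cast_nonneg _
  have hlogs : 0 < Real.log s := Real.log_pos (by exact_mod_cast (by omega))
  have hlq : 0 < Real.log s ^ q := Real.rpow_pos_of_pos hlogs _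
  set l : ℕ := Nat.log 2 s / 2 with hl
  have hlog := log_le' s (by omega)
  rw [← hl] at hlog
  have hA : 0 ≤ 8 / (3 * δ) * (c * η) := by positivity
  have hB : 0 ≤ 8 / (3 * δ) * (c * (η / 4) ^ (-q)) := by positivity
  have hD : 0 ≤ (4 * (l₀ + 2)) ^ q := by positivity
  have hsq : 0 ≤ (s : ℝ) / Real.log s ^ q := by positivity
  by_cases hsmall : (l : ℝ) < l₀ + 1
  · refine Prot.mono C (C.prot_univ hN own (by omega)) ?_
    have h1 : Real.log s ^ q ≤ (4 * (l₀ + 2)) ^ q := by
      apply Real.rpow_le_rpow hlogs.le _ hq0.le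
      linarith
    have h2 : (s : ℝ) ≤ (4 * (l₀ + 2)) ^ q * (s / Real.log s ^ q) := by
      rw [mul_div_assoc', le_div_iff₀ hlq]
      rw [mul_comm]
      exact mul_le_mul_of_nonneg_right h1 hs0.le
    nlinarith [mul_nonneg hA hn0, mul_nonneg hA hsq, mul_nonneg hB hn0, mul_nonneg hB hsq,
      mul_nonneg hD hn0]
  · push Not at hsmall
    have hl1 : (1 : ℝ) ≤ l := by linarith
    have hl1' : 1 ≤ l := by exact_mod_cast hl1
    have hl0 : (0 : ℝ) < l := by linarith
    set r : ℝ := (η * l) ^ (1 / (1 - e)) with hr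
    have hηl : 0 < η * l := by positivity
    have hr0 : 0 < r := Real.rpow_pos_of_pos hηl _
    have hr1 : r ^ (1 - e) = η * l := by
      rw [hr, ← Real.rpow_mul hηl.le, one_div, inv_mul_cancel₀ h1e.ne', Real.rpow_one]
    have hrr : r₀ ≤ r := by
      have h1 : r₀ ^ (1 - e) ≤ r ^ (1 - e) := by
        rw [hr1]
        have : l₀ ≤ l := by linarith
        rw [hl₀, div_le_iff₀ hη0] at this
        linarith
      exact (Real.rpow_le_rpow_iff hr₀0.le hr0.le h1e).1 h1
    have hre : c * r ^ (-e) ≤ 3 * δ / 32 := by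
      have h1 : r ^ (-e) ≤ r₀ ^ (-e) := Real.rpow_le_rpow_of_nonpos hr₀0 hrr (by linarith)
      have h2 : r₀ ^ (-e) = 3 * δ / (32 * (c + 1)) := by
        rw [hr₀, ← Real.rpow_mul (by positivity)]
        have : 1 / e * -e = -1 := by field_simp
        rw [this, Real.rpow_neg_one, inv_div]
      rw [h2] at h1
      have h3 : c * r ^ (-e) ≤ c * η := mul_le_mul_of_nonneg_left h1 hc
      linarith
    have hr2 : r ^ (1 - e) = r * r ^ (-e) := by
      rw [show (1 - e : ℝ) = 1 + (-e) by ring, Real.rpow_add hr0, Real.rpow_one]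
    obtain ⟨S, lab, h1, h2, h3⟩ := C.exists_opened (1 / r) (1 / l) (c * r ^ (1 - e)) e δ
      (by positivity) (by positivity) (by positivity) he he1.le hδ
      (by
        rw [add_mul]
        have e1 : 1 / r * (c * r ^ (1 - e)) = c * r ^ (-e) := by
          rw [hr2]
          have : 1 / r * (c * (r * r ^ (-e))) = (1 / r * r) * (c * r ^ (-e)) := by ring
          rw [this, one_div_mul_cancel hr0.ne', one_mul]
        have e2 : 1 / (l : ℝ) * (c * r ^ (1 - e)) = c * η := by
          rw [hr1]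
          have : 1 / (l : ℝ) * (c * (η * l)) = (1 / (l : ℝ) * l) * (c * η) := by ring
          rw [this, one_div_mul_cancel hl0.ne', one_mul]
        rw [e1, e2]
        linarith)
      (fun k => c * k ^ (1 - e)) hsep (by
        intro R D hM
        have hMpos : 0 < C.meas (1 / r) (1 / l) R D := by linarith
        have hR : (R.card : ℝ) ≤ r * C.meas (1 / r) (1 / l) R D := by
          rw [C.meas_eq, mul_add, ← mul_assoc, mul_one_div_cancel hr0.ne', one_mul]
          have : 0 ≤ r * (1 / l * ((R ∩ (D ∪ C.inputs)).card : ℝ)) :=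
            mul_nonneg hr0.le (mul_nonneg (one_div_nonneg.2 hl0.le) (Nat.cast_nonneg _))
          linarith
        rw [mul_assoc, ← Real.mul_rpow hr0.le hMpos.le]
        apply mul_le_mul_of_nonneg_left _ hc
        exact Real.rpow_le_rpow (Nat.cast_nonneg _) hR h1e.le)
    have hS : (S.card : ℝ) ≤ (8 / (3 * δ) * (c * η) + 8 / (3 * δ) * (c * (η / 4) ^ (-q)) +
        (4 * (l₀ + 2)) ^ q) * (n + s / (Real.log s) ^ q) := by
      have e1 : c * r ^ (1 - e) * (8 / (3 * δ)) * (1 / r * s + 1 / l * n) =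
          8 / (3 * δ) * (c * r ^ (-e) * s) + 8 / (3 * δ) * (c * η) * n := by
        have e2 : c * r ^ (1 - e) * (8 / (3 * δ)) * (1 / r * s + 1 / l * n) =
          8 / (3 * δ) * (c * (r ^ (1 - e) / r) * s) +
            8 / (3 * δ) * (c * (r ^ (1 - e) / l)) * n := by ring
        rw [e2]
        have e3 : r ^ (1 - e) / r = r ^ (-e) := by
          rw [hr2, mul_div_assoc, mul_comm, div_mul_cancel₀ _ hr0.ne']
        have e4 : r ^ (1 - e) / l = η := by
          rw [hr1, mul_div_assoc, div_self hl0.ne', mul_one]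
        rw [e3, e4]
      rw [e1] at h3
      have e5 : r ^ (-e) = (η * l) ^ (-q) := by
        rw [hr, ← Real.rpow_mul hηl.le]
        congr 1
        rw [hq]; field_simp
      have e6 : (η * l) ^ (-q) ≤ (η / 4) ^ (-q) / Real.log s ^ q := by
        have e7 : (η / 4) ^ (-q) / Real.log s ^ q = (η / 4 * Real.log s) ^ (-q) := by
          rw [Real.mul_rpow (by positivity) hlogs.le, Real.rpow_neg hlogs.le q]
          rw [div_eq_mul_inv]
        rw [e7]
        apply Real.rpow_le_rpow_of_nonpos (by positivity) _ (by linarith)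
        have : Real.log s ≤ 4 * l := by linarith
        nlinarith
      have e8 : 8 / (3 * δ) * (c * r ^ (-e) * s) ≤
          8 / (3 * δ) * (c * (η / 4) ^ (-q)) * (s / Real.log s ^ q) := by
        rw [e5]
        have : 8 / (3 * δ) * (c * (η / 4) ^ (-q)) * (s / Real.log s ^ q) =
          8 / (3 * δ) * (c * ((η / 4) ^ (-q) / Real.log s ^ q) * s) := by ring
        rw [this]
        apply mul_le_mul_of_nonneg_left _ (by positivity)
        apply mul_le_mul_of_nonneg_right _ hs0.le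
        exact mul_le_mul_of_nonneg_left e6 hc
      nlinarith [mul_nonneg hA hn0, mul_nonneg hA hsq, mul_nonneg hB hn0, mul_nonneg hB hsq,
        mul_nonneg hD hn0, mul_nonneg hD hsq]
    have hlv : ∀ v, (C.leaves S v).card ≤ 2 * l := by
      intro v
      refine C.leaves_card' S lab l hl1' (fun v hv => ⟨(h1 v hv).1, (h1 v hv).2.1⟩) h2 ?_ v
      intro v hv
      have := (h1 v hv).2.2
      rw [one_div, inv_mul_le_iff₀ hl0, mul_one] at this
      exact_mod_cast this
    obtain ⟨P, g1, g2, g3, g4⟩ := C.opened hN own S (2 * l) (fun v _ => hlv v) (fun k => hlv _)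
    refine ⟨P, g1, g2, ?_, g4.mono ?_⟩
    · rw [g3]
      push_cast
      have : (0 : ℝ) ≤ N := Nat.cast_nonneg _
      nlinarith
    · have hSs : S.card ≤ s := by simpa using card_le_univ S
      have hp : 2 ^ (2 * l) ≤ s := by
        calc 2 ^ (2 * l) ≤ 2 ^ (Nat.log 2 s) := Nat.pow_le_pow_right (by norm_num) (by omega)
          _ ≤ s := Nat.pow_log_le_self 2 (by omega)
      have : (S.card + m) * 2 ^ (2 * l) ≤ (s + m) * s := Nat.mul_le_mul (by omega) hp
      nlinarith

end Circuit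

end Pool.Agent.Work.MP_2ceb02_lc
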