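import Pool.Agent.Work.MP_2ceb02_lc.Cone

/-!
# Divisions into regions with few terminals
-/

namespace Pool.Agent.Work.MP_2ceb02_lc

open Finset

/-- Hereditary weighted separators: for every set `W` of nodes and all nonnegative weights on the
nodes there is a part `X` of `W` with at most `σ |W|` elements such that the rest of `W` splits
into two sets of at most two thirds of the weight of `W` with no edge of the circuit between
them. -/
def Circuit.HasWeightedSeparators {n m s : ℕ} (C : Circuit n m s) (σ : ℝ → ℝ) : Prop :=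
  ∀ (W : Finset (Fin s)) (w : Fin s → ℝ), (∀ v, 0 ≤ w v) →
    ∃ X A B : Finset (Fin s), X ⊆ W ∧ A ∪ B = W \ X ∧ Disjoint A B ∧ (X.card : ℝ) ≤ σ W.card ∧
      ∑ v ∈ A, w v ≤ 2 / 3 * ∑ v ∈ W, w v ∧ ∑ v ∈ B, w v ≤ 2 / 3 * ∑ v ∈ W, w v ∧
      ∀ a ∈ A, ∀ b ∈ B, ¬ C.Adj a b

namespace Circuit

variable {n m s : ℕ} (C : Circuit n m s)

/-- The input nodes. -/
noncomputable def inputs : Finset (Fin s) :=
  open scoped Classical in univ.filter (fun i => ∃ j, C.node i = Node.input j)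

theorem mem_inputs (i : Fin s) : i ∈ C.inputs ↔ ∃ j, C.node i = Node.input j := by
  simp [inputs]

theorem card_inputs_le : C.inputs.card ≤ n := by
  classical
  have h : ∀ i : C.inputs, ∃ j : Fin n, C.node i = Node.input j := fun i =>
    (C.mem_inputs i).1 i.2
  choose f hf using h
  have hinj : Function.Injective f := by
    intro i i' hii
    apply Subtype.ext
    apply C.inj _ _ (f i) (hf i)
    rw [hii]; exact hf i'
  have := Fintype.card_le_of_injective f hinj
  simpa using this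

/-- The weight of a region `R` with boundary `D`. -/
noncomputable def wt (a b : ℝ) (D : Finset (Fin s)) (v : Fin s) : ℝ :=
  a + if v ∈ D ∪ C.inputs then b else 0

noncomputable def meas (a b : ℝ) (R D : Finset (Fin s)) : ℝ := ∑ v ∈ R, C.wt a b D v

theorem wt_nonneg (a b : ℝ) (ha : 0 ≤ a) (hb : 0 ≤ b) (D : Finset (Fin s)) (v : Fin s) :
    0 ≤ C.wt a b D v := by
  unfold wt
  split_ifs <;> linarith

theorem meas_eq (a b : ℝ) (R D : Finset (Fin s)) :
    C.meas a b R D = a * R.card + b * (R ∩ (D ∪ C.inputs)).card := by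
  unfold meas wt
  rw [Finset.sum_add_distrib, Finset.sum_const, Finset.sum_ite_mem, Finset.sum_const,
    nsmul_eq_mul, nsmul_eq_mul]
  ring

/-- The potential. -/
theorem exists_psi (p δ ε : ℝ) (hp : 0 < p) (hp1 : p ≤ 1) (hδ : δ = (4 / 3 : ℝ) ^ p - 1)
    (hε0 : 0 ≤ ε) (hε : ε ≤ 3 * δ / 16) :
    ∃ ψ : ℝ → ℝ, (∀ x, 0 ≤ ψ x) ∧ (∀ x y, 0 ≤ x → x ≤ y → ψ x ≤ ψ y) ∧
      (∀ x, ψ x ≤ 8 / (3 * δ)) ∧
      ∀ M, 1 < M → M ^ (1 - p) + (M + 2 * ε * M ^ (1 - p)) * ψ (3 * M / 4) ≤ M * ψ M := by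
  have h43 : (3 / 4 : ℝ) ^ (-p) = 1 + δ := by
    rw [hδ, Real.rpow_neg (by norm_num), ← Real.inv_rpow (by norm_num)]
    norm_num
  have hδ0 : 0 < δ := by
    have : 1 < (4 / 3 : ℝ) ^ p := Real.one_lt_rpow (by norm_num) hp
    linarith
  have hδ1 : δ ≤ 1 / 3 := by
    have : (4 / 3 : ℝ) ^ p ≤ (4 / 3 : ℝ) ^ (1 : ℝ) :=
      Real.rpow_le_rpow_of_exponent_le (by norm_num) hp1
    rw [Real.rpow_one] at this
    linarith
  set B : ℝ := 2 / δ with hB
  have hB0 : 0 < B := by positivity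
  let ψ : ℝ → ℝ := fun t => if t ≤ 3 / 4 then 0 else B * ((3 / 4 : ℝ) ^ (-p) - t ^ (-p))
  have hpos : ∀ t : ℝ, ¬ t ≤ 3 / 4 → 0 ≤ B * ((3 / 4 : ℝ) ^ (-p) - t ^ (-p)) := by
    intro t ht
    push Not at ht
    apply mul_nonneg hB0.le
    have := Real.rpow_le_rpow_of_nonpos (by norm_num : (0 : ℝ) < 3 / 4) ht.le
      (by linarith : -p ≤ 0)
    linarith
  have hup : ∀ x, ψ x ≤ 8 / (3 * δ) := by
    intro x
    simp only [ψ]
    split_ifs with h
    · positivity
    · push Not at h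
      have h1 : 0 ≤ x ^ (-p) := Real.rpow_nonneg (by linarith) _
      rw [h43]
      calc B * (1 + δ - x ^ (-p)) ≤ B * (4 / 3) := by
            apply mul_le_mul_of_nonneg_left _ hB0.le
            linarith
        _ = 8 / (3 * δ) := by rw [hB]; field_simp; ring
  refine ⟨ψ, ?_, ?_, hup, ?_⟩
  · intro x
    simp only [ψ]
    split_ifs with h
    · exact le_rfl
    · exact hpos x h
  · intro x y hx hxy
    simp only [ψ]
    split_ifs with h1 h2
    · exact le_rfl
    · exact hpos y h2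
    · exact absurd (hxy.trans ‹_›) h1
    · push Not at h1
      apply mul_le_mul_of_nonneg_left _ hB0.le
      have := Real.rpow_le_rpow_of_nonpos (by linarith : (0 : ℝ) < x) hxy (by linarith : -p ≤ 0)
      linarith
  · intro M hM
    have hM0 : 0 < M := by linarith
    have c1 : ¬ (3 * M / 4 ≤ 3 / 4) := by push Not; linarith
    have c2 : ¬ (M ≤ 3 / 4) := by push Not; linarith
    have e1 : ψ (3 * M / 4) = B * ((1 + δ) - (1 + δ) * M ^ (-p)) := by
      simp only [ψ]
      rw [if_neg c1, h43, show 3 * M / 4 = (3 / 4) * M by ring,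
        Real.mul_rpow (by norm_num) hM0.le, h43]
    have e2 : ψ M = B * ((1 + δ) - M ^ (-p)) := by
      simp only [ψ]
      rw [if_neg c2, h43]
    have e3 : M ^ (1 - p) = M * M ^ (-p) := by
      rw [show (1 - p : ℝ) = 1 + (-p) by ring, Real.rpow_add hM0, Real.rpow_one]
    have hMp : 0 ≤ M ^ (1 - p) := Real.rpow_nonneg hM0.le _
    have e4 : 2 * ε * M ^ (1 - p) * ψ (3 * M / 4) ≤ M ^ (1 - p) := by
      have h1 : ψ (3 * M / 4) ≤ 8 / (3 * δ) := hup _
      have h2 : 2 * ε * M ^ (1 - p) * ψ (3 * M / 4) ≤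
          2 * (3 * δ / 16) * M ^ (1 - p) * (8 / (3 * δ)) := by
        apply mul_le_mul _ h1 _ (by positivity)
        · apply mul_le_mul_of_nonneg_right _ hMp
          linarith
        · simp only [ψ]
          rw [if_neg c1]
          exact hpos _ c1
      have h3 : 2 * (3 * δ / 16) * M ^ (1 - p) * (8 / (3 * δ)) = M ^ (1 - p) := by
        field_simp
        ring
      linarith
    have e5 : M * ψ M - M * ψ (3 * M / 4) = 2 * M ^ (1 - p) := by
      rw [e1, e2, e3, hB]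
      field_simp
      ring
    have : (M + 2 * ε * M ^ (1 - p)) * ψ (3 * M / 4) =
        M * ψ (3 * M / 4) + 2 * ε * M ^ (1 - p) * ψ (3 * M / 4) := by ring
    rw [this]
    linarith

/-- The division lemma. -/
theorem exists_division_aux (a b κ p : ℝ) (ha : 0 ≤ a) (hb : 0 < b) (hκ : 0 ≤ κ) (hp : 0 < p)
    (ε : ℝ) (hε : ε = (a + b) * κ) (hε' : ε ≤ 1 / 16)
    (ψ : ℝ → ℝ) (ψ0 : ∀ x, 0 ≤ ψ x) (ψm : ∀ x y, 0 ≤ x → x ≤ y → ψ x ≤ ψ y)
    (ψe : ∀ M, 1 < M → M ^ (1 - p) + (M + 2 * ε * M ^ (1 - p)) * ψ (3 * M / 4) ≤ M * ψ M)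
    (σ : ℝ → ℝ) (hsep : C.HasWeightedSeparators σ)
    (hσ : ∀ R D : Finset (Fin s), 1 < C.meas a b R D →
      σ R.card ≤ κ * (C.meas a b R D) ^ (1 - p)) (k : ℕ) :
    ∀ R D : Finset (Fin s), D ⊆ R → (∀ v ∈ R, v ∉ D → ∀ u, C.Adj v u → u ∈ R) →
      C.meas a b R D ≤ (4 / 3) ^ k →
      ∃ S, D ⊆ S ∧ S ⊆ R ∧ ∃ lab : Fin s → Finset (Fin s),
        (∀ v ∈ R, v ∉ S → v ∈ lab v ∧ lab v ⊆ R ∧ (∀ u, C.Adj v u → u ∈ lab v) ∧
          b * (lab v ∩ (S ∪ C.inputs)).card ≤ 1) ∧
        (∀ v ∈ R, v ∉ S → ∀ u ∈ R, u ∉ S → C.Adj v u → lab v = lab u) ∧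
        ((S \ D).card : ℝ) ≤ κ * (C.meas a b R D * ψ (C.meas a b R D)) := by
  have hbase : ∀ R D : Finset (Fin s), D ⊆ R → (∀ v ∈ R, v ∉ D → ∀ u, C.Adj v u → u ∈ R) →
      C.meas a b R D ≤ 1 →
      ∃ S, D ⊆ S ∧ S ⊆ R ∧ ∃ lab : Fin s → Finset (Fin s),
        (∀ v ∈ R, v ∉ S → v ∈ lab v ∧ lab v ⊆ R ∧ (∀ u, C.Adj v u → u ∈ lab v) ∧
          b * (lab v ∩ (S ∪ C.inputs)).card ≤ 1) ∧
        (∀ v ∈ R, v ∉ S → ∀ u ∈ R, u ∉ S → C.Adj v u → lab v = lab u) ∧
        ((S \ D).card : ℝ) ≤ κ * (C.meas a b R D * ψ (C.meas a b R D)) := by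
    intro R D hDR hcl hM
    refine ⟨D, Subset.rfl, hDR, fun _ => R, ?_, ?_, ?_⟩
    · intro v hv hvD
      refine ⟨hv, Subset.rfl, hcl v hv hvD, ?_⟩
      rw [C.meas_eq] at hM
      have : 0 ≤ a * R.card := by positivity
      linarith
    · intro _ _ _ _ _ _ _
      rfl
    · rw [Finset.sdiff_self, card_empty, Nat.cast_zero]
      have : 0 ≤ C.meas a b R D := Finset.sum_nonneg (fun v _ => C.wt_nonneg a b ha hb.le D v)
      exact mul_nonneg hκ (mul_nonneg this (ψ0 _))
  induction k with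
  | zero =>
    intro R D hDR hcl hM
    rw [pow_zero] at hM
    exact hbase R D hDR hcl hM
  | succ k ih =>
    intro R D hDR hcl hM
    by_cases hM1 : C.meas a b R D ≤ 1
    · exact hbase R D hDR hcl hM1
    push Not at hM1
    set M : ℝ := C.meas a b R D with hMdef
    have hM0 : 0 < M := by linarith
    obtain ⟨X, A, B, hXR, hAB, hdis, hX, hA, hB, hadj⟩ :=
      hsep R (C.wt a b D) (C.wt_nonneg a b ha hb.le D)
    have hX' : (X.card : ℝ) ≤ κ * M ^ (1 - p) := hX.trans (hσ R D hM1)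
    have hMp : M ^ (1 - p) ≤ M := by
      calc M ^ (1 - p) ≤ M ^ (1 : ℝ) :=
            Real.rpow_le_rpow_of_exponent_le hM1.le (by linarith)
        _ = M := Real.rpow_one M
    have hMp0 : 0 ≤ M ^ (1 - p) := Real.rpow_nonneg hM0.le _
    have habX : (a + b) * X.card ≤ ε * M ^ (1 - p) := by
      rw [hε, mul_assoc]
      exact mul_le_mul_of_nonneg_left hX' (by linarith)
    have hε0 : 0 ≤ ε := by rw [hε]; positivity
    have habX' : (a + b) * X.card ≤ M / 16 := by
      have : ε * M ^ (1 - p) ≤ 1 / 16 * M := mul_le_mul hε' hMp hMp0 (by norm_num)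
      linarith
    -- general facts on a side
    have side : ∀ A' B' : Finset (Fin s), A' ∪ B' = R \ X → Disjoint A' B' →
        ∑ v ∈ A', C.wt a b D v ≤ 2 / 3 * ∑ v ∈ R, C.wt a b D v →
        (∀ x ∈ A', ∀ y ∈ B', ¬ C.Adj x y) →
        ∃ S, (D ∩ A') ∪ X ⊆ S ∧ S ⊆ A' ∪ X ∧ ∃ lab : Fin s → Finset (Fin s),
        (∀ v ∈ A' ∪ X, v ∉ S → v ∈ lab v ∧ lab v ⊆ A' ∪ X ∧ (∀ u, C.Adj v u → u ∈ lab v) ∧
          b * (lab v ∩ (S ∪ C.inputs)).card ≤ 1) ∧
        (∀ v ∈ A' ∪ X, v ∉ S → ∀ u ∈ A' ∪ X, u ∉ S → C.Adj v u → lab v = lab u) ∧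
        ∃ M₁ : ℝ, 0 ≤ M₁ ∧ M₁ ≤ ∑ v ∈ A', C.wt a b D v + (a + b) * X.card ∧
        ((S \ ((D ∩ A') ∪ X)).card : ℝ) ≤ κ * (M₁ * ψ (3 * M / 4)) := by
      intro A' B' hAB' hdis' hA' hadj'
      have hA'R : A' ⊆ R \ X := by rw [← hAB']; exact subset_union_left
      have hA'X : Disjoint A' X := by
        rw [Finset.disjoint_left]
        intro v hv hvX
        exact (mem_sdiff.1 (hA'R hv)).2 hvX
      have hmeas : C.meas a b (A' ∪ X) ((D ∩ A') ∪ X) =
          ∑ v ∈ A', C.wt a b D v + (a + b) * X.card := by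
        unfold meas
        rw [Finset.sum_union hA'X]
        congr 1
        · apply Finset.sum_congr rfl
          intro v hv
          have hvX : v ∉ X := Finset.disjoint_left.1 hA'X hv
          unfold wt
          have : v ∈ ((D ∩ A') ∪ X) ∪ C.inputs ↔ v ∈ D ∪ C.inputs := by
            simp only [mem_union, mem_inter]
            tauto
          simp only [this]
        · rw [Finset.sum_congr rfl (g := fun _ => a + b)]
          · rw [Finset.sum_const, nsmul_eq_mul]; ring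
          · intro v hv
            unfold wt
            rw [if_pos]
            simp only [mem_union]
            tauto
      have hM1' : C.meas a b (A' ∪ X) ((D ∩ A') ∪ X) ≤ 3 * M / 4 := by
        rw [hmeas]
        have : ∑ v ∈ R, C.wt a b D v = M := rfl
        rw [this] at hA'
        linarith
      have hcl' : ∀ v ∈ A' ∪ X, v ∉ (D ∩ A') ∪ X → ∀ u, C.Adj v u → u ∈ A' ∪ X := by
        intro v hv hvD u hvu
        simp only [mem_union, mem_inter, not_or, not_and_or] at hv hvD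
        have hvA : v ∈ A' := by tauto
        have hvD' : v ∉ D := by tauto
        have hvR : v ∈ R := (mem_sdiff.1 (hA'R hvA)).1
        have huR : u ∈ R := hcl v hvR hvD' u hvu
        by_cases huX : u ∈ X
        · exact mem_union_right _ huX
        · have : u ∈ A' ∪ B' := by rw [hAB']; exact mem_sdiff.2 ⟨huR, huX⟩
          rcases mem_union.1 this with h | h
          · exact mem_union_left _ h
          · exact absurd hvu (hadj' v hvA u h)
      have hsub : (D ∩ A') ∪ X ⊆ A' ∪ X :=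
        union_subset_union inter_subset_right Subset.rfl
      have hpow : C.meas a b (A' ∪ X) ((D ∩ A') ∪ X) ≤ (4 / 3) ^ k := by
        refine hM1'.trans ?_
        rw [pow_succ] at hM
        linarith
      obtain ⟨S, s1, s2, lab, s3, s4, s5⟩ := ih _ _ hsub hcl' hpow
      have hm0 : 0 ≤ C.meas a b (A' ∪ X) ((D ∩ A') ∪ X) :=
        Finset.sum_nonneg (fun v _ => C.wt_nonneg a b ha hb.le _ v)
      refine ⟨S, s1, s2, lab, s3, s4, C.meas a b (A' ∪ X) ((D ∩ A') ∪ X), hm0, hmeas.le, ?_⟩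
      refine s5.trans ?_
      apply mul_le_mul_of_nonneg_left _ hκ
      exact mul_le_mul_of_nonneg_left (ψm _ _ hm0 hM1') hm0
    obtain ⟨S₁, p1, p2, lab₁, p3, p4, M₁, p5, p6, p7⟩ := side A B hAB hdis hA hadj
    obtain ⟨S₂, q1, q2, lab₂, q3, q4, M₂, q5, q6, q7⟩ := side B A (by rw [union_comm]; exact hAB)
      hdis.symm hB (fun x hx y hy h => hadj y hy x hx h.symm)
    have hXS₁ : X ⊆ S₁ := subset_union_right.trans p1
    have hXS₂ : X ⊆ S₂ := subset_union_right.trans q1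
    have hAR : A ⊆ R \ X := by rw [← hAB]; exact subset_union_left
    have hBR : B ⊆ R \ X := by rw [← hAB]; exact subset_union_right
    have hAX : ∀ v ∈ A, v ∉ X := fun v hv => (mem_sdiff.1 (hAR hv)).2
    have hBX : ∀ v ∈ B, v ∉ X := fun v hv => (mem_sdiff.1 (hBR hv)).2
    have hdj : ∀ v ∈ A, v ∉ B := fun v hv => Finset.disjoint_left.1 hdis hv
    -- membership facts
    have hcase : ∀ v ∈ R, v ∉ S₁ ∪ S₂ → (v ∈ A ∧ v ∉ S₁) ∨ (v ∈ B ∧ v ∉ A ∧ v ∉ S₂) := by
      intro v hv hn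
      simp only [mem_union, not_or] at hn
      have hvX : v ∉ X := fun h => hn.1 (hXS₁ h)
      have : v ∈ A ∪ B := by rw [hAB]; exact mem_sdiff.2 ⟨hv, hvX⟩
      rcases mem_union.1 this with h | h
      · exact Or.inl ⟨h, hn.1⟩
      · exact Or.inr ⟨h, fun h' => hdj v h' h, hn.2⟩
    have hi1 : (S₁ ∪ S₂) ∩ (A ∪ X) ⊆ S₁ := by
      intro v hv
      simp only [mem_inter, mem_union] at hv
      rcases hv.1 with h | h
      · exact h
      · rcases hv.2 with h' | h'
        · have := q2 h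
          simp only [mem_union] at this
          rcases this with g | g
          · exact absurd g (hdj v h')
          · exact hXS₁ g
        · exact hXS₁ h'
    have hi2 : (S₁ ∪ S₂) ∩ (B ∪ X) ⊆ S₂ := by
      intro v hv
      simp only [mem_inter, mem_union] at hv
      rcases hv.1 with h | h
      · rcases hv.2 with h' | h'
        · have := p2 h
          simp only [mem_union] at this
          rcases this with g | g
          · exact absurd h' (hdj v g)
          · exact hXS₂ g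
        · exact hXS₂ h'
      · exact h
    have hdeep : ∀ (T P : Finset (Fin s)) (S : Finset (Fin s)), P ⊆ T → (S₁ ∪ S₂) ∩ T ⊆ S →
        b * ((P ∩ (S ∪ C.inputs)).card : ℝ) ≤ 1 →
        b * ((P ∩ ((S₁ ∪ S₂) ∪ C.inputs)).card : ℝ) ≤ 1 := by
      intro T P S hPT hS h
      refine le_trans (mul_le_mul_of_nonneg_left ?_ hb.le) h
      norm_cast
      apply card_le_card
      intro v hv
      simp only [mem_inter, mem_union] at hv ⊢
      refine ⟨hv.1, ?_⟩
      rcases hv.2 with h1 | h1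
      · left
        apply hS
        simp only [mem_inter, mem_union]
        exact ⟨h1, hPT hv.1⟩
      · right; exact h1
    refine ⟨S₁ ∪ S₂, ?_, ?_, fun v => if v ∈ A then lab₁ v else lab₂ v, ?_, ?_, ?_⟩
    · intro v hv
      by_cases hvX : v ∈ X
      · exact mem_union_left _ (hXS₁ hvX)
      · have : v ∈ A ∪ B := by rw [hAB]; exact mem_sdiff.2 ⟨hDR hv, hvX⟩
        rcases mem_union.1 this with h | h
        · apply mem_union_left
          apply p1
          simp only [mem_union, mem_inter]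
          exact Or.inl ⟨hv, h⟩
        · apply mem_union_right
          apply q1
          simp only [mem_union, mem_inter]
          exact Or.inl ⟨hv, h⟩
    · apply union_subset
      · refine p2.trans (union_subset (hAR.trans sdiff_subset) hXR)
      · refine q2.trans (union_subset (hBR.trans sdiff_subset) hXR)
    · intro v hv hn
      beta_reduce
      rcases hcase v hv hn with ⟨h1, h2⟩ | ⟨h1, h2, h3⟩
      · rw [if_pos h1]
        obtain ⟨r1, r2, r3, r4⟩ := p3 v (mem_union_left _ h1) h2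
        exact ⟨r1, r2.trans (union_subset (hAR.trans sdiff_subset) hXR), r3,
          hdeep _ _ _ r2 hi1 r4⟩
      · rw [if_neg h2]
        obtain ⟨r1, r2, r3, r4⟩ := q3 v (mem_union_left _ h1) h3
        exact ⟨r1, r2.trans (union_subset (hBR.trans sdiff_subset) hXR), r3,
          hdeep _ _ _ r2 hi2 r4⟩
    · intro v hv hn u hu hnu hvu
      beta_reduce
      rcases hcase v hv hn with ⟨h1, h2⟩ | ⟨h1, h2, h3⟩
      · rcases hcase u hu hnu with ⟨g1, g2⟩ | ⟨g1, g2, g3⟩
        · rw [if_pos h1, if_pos g1]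
          exact p4 v (mem_union_left _ h1) h2 u (mem_union_left _ g1) g2 hvu
        · exact absurd hvu (hadj v h1 u g1)
      · rcases hcase u hu hnu with ⟨g1, g2⟩ | ⟨g1, g2, g3⟩
        · exact absurd hvu.symm (hadj u g1 v h1)
        · rw [if_neg h2, if_neg g2]
          exact q4 v (mem_union_left _ h1) h3 u (mem_union_left _ g1) g3 hvu
    · have hsub : (S₁ ∪ S₂) \ D ⊆ X ∪ (S₁ \ ((D ∩ A) ∪ X)) ∪ (S₂ \ ((D ∩ B) ∪ X)) := by
        intro v hv
        simp only [mem_sdiff, mem_union, mem_inter, not_or, not_and_or] at hv ⊢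
        tauto
      have hcard : (((S₁ ∪ S₂) \ D).card : ℝ) ≤ X.card + (S₁ \ ((D ∩ A) ∪ X)).card +
          (S₂ \ ((D ∩ B) ∪ X)).card := by
        norm_cast
        exact (card_le_card hsub).trans ((card_union_le _ _).trans
          (Nat.add_le_add_right (card_union_le _ _) _))
      have hsum : ∑ v ∈ A, C.wt a b D v + ∑ v ∈ B, C.wt a b D v ≤ M := by
        rw [← Finset.sum_union hdis, hAB]
        exact Finset.sum_le_sum_of_subset_of_nonneg sdiff_subset
          (fun v _ _ => C.wt_nonneg a b ha hb.le D v)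
      have hψ := ψe M hM1
      have hψ0 := ψ0 (3 * M / 4)
      have h12 : M₁ + M₂ ≤ M + 2 * ε * M ^ (1 - p) := by linarith
      have h13 : (M₁ + M₂) * ψ (3 * M / 4) ≤ (M + 2 * ε * M ^ (1 - p)) * ψ (3 * M / 4) :=
        mul_le_mul_of_nonneg_right h12 hψ0
      calc (((S₁ ∪ S₂) \ D).card : ℝ) ≤ X.card + (S₁ \ ((D ∩ A) ∪ X)).card +
          (S₂ \ ((D ∩ B) ∪ X)).card := hcard
        _ ≤ κ * M ^ (1 - p) + κ * (M₁ * ψ (3 * M / 4)) + κ * (M₂ * ψ (3 * M / 4)) := by
            linarith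
        _ = κ * (M ^ (1 - p) + (M₁ + M₂) * ψ (3 * M / 4)) := by ring
        _ ≤ κ * (M * ψ M) := mul_le_mul_of_nonneg_left (by linarith) hκ

/-- A set of opened nodes with few leaves everywhere. -/
theorem exists_opened (a b κ p δ : ℝ) (ha : 0 ≤ a) (hb : 0 < b) (hκ : 0 ≤ κ) (hp : 0 < p)
    (hp1 : p ≤ 1) (hδ : δ = (4 / 3 : ℝ) ^ p - 1) (hε : (a + b) * κ ≤ 3 * δ / 16)
    (σ : ℝ → ℝ) (hsep : C.HasWeightedSeparators σ)
    (hσ : ∀ R D : Finset (Fin s), 1 < C.meas a b R D →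
      σ R.card ≤ κ * (C.meas a b R D) ^ (1 - p)) :
    ∃ (S : Finset (Fin s)) (lab : Fin s → Finset (Fin s)),
      (∀ v, v ∉ S → v ∈ lab v ∧ (∀ u, C.Adj v u → u ∈ lab v) ∧
        b * (lab v ∩ (S ∪ C.inputs)).card ≤ 1) ∧
      (∀ v, v ∉ S → ∀ u, u ∉ S → C.Adj v u → lab v = lab u) ∧
      (S.card : ℝ) ≤ κ * (8 / (3 * δ)) * (a * s + b * n) := by
  have hδ1 : δ ≤ 1 / 3 := by
    have : (4 / 3 : ℝ) ^ p ≤ (4 / 3 : ℝ) ^ (1 : ℝ) :=
      Real.rpow_le_rpow_of_exponent_le (by norm_num) hp1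
    rw [Real.rpow_one] at this
    linarith
  have hε0 : 0 ≤ (a + b) * κ := by positivity
  obtain ⟨ψ, ψ0, ψm, ψu, ψe⟩ := exists_psi p δ ((a + b) * κ) hp hp1 hδ hε0 hε
  have hm0 : 0 ≤ C.meas a b univ ∅ := Finset.sum_nonneg (fun v _ => C.wt_nonneg a b ha hb.le _ v)
  obtain ⟨k, hk⟩ : ∃ k : ℕ, C.meas a b univ ∅ ≤ (4 / 3 : ℝ) ^ k := by
    obtain ⟨k, hk⟩ := pow_unbounded_of_one_lt (C.meas a b univ ∅)
      (by norm_num : (1 : ℝ) < 4 / 3)
    exact ⟨k, hk.le⟩
  obtain ⟨S, _, _, lab, h1, h2, h3⟩ := C.exists_division_aux a b κ p ha hb hκ hp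
    ((a + b) * κ) rfl (by linarith) ψ ψ0 ψm ψe σ hsep hσ k univ ∅ (empty_subset _)
    (fun _ _ _ _ _ => mem_univ _) hk
  refine ⟨S, lab, ?_, ?_, ?_⟩
  · intro v hv
    obtain ⟨r1, _, r3, r4⟩ := h1 v (mem_univ _) hv
    exact ⟨r1, r3, r4⟩
  · intro v hv u hu hvu
    exact h2 v (mem_univ _) hv u (mem_univ _) hu hvu
  · rw [Finset.sdiff_empty] at h3
    refine h3.trans ?_
    rw [mul_assoc]
    apply mul_le_mul_of_nonneg_left _ hκ
    have hM : C.meas a b univ ∅ ≤ a * s + b * n := by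
      rw [C.meas_eq]
      simp only [card_univ, Fintype.card_fin, empty_union, univ_inter]
      have : (C.inputs.card : ℝ) ≤ n := by exact_mod_cast C.card_inputs_le
      nlinarith
    have hδ0 : 0 < δ := by
      have : 1 < (4 / 3 : ℝ) ^ p := Real.one_lt_rpow (by norm_num) hp
      linarith
    calc C.meas a b univ ∅ * ψ (C.meas a b univ ∅)
        ≤ C.meas a b univ ∅ * (8 / (3 * δ)) := mul_le_mul_of_nonneg_left (ψu _) hm0
      _ ≤ (a * s + b * n) * (8 / (3 * δ)) := mul_le_mul_of_nonneg_right hM (by positivity)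
      _ = 8 / (3 * δ) * (a * s + b * n) := by ring

/-- The leaf carried by a node. -/
noncomputable def leafOf (S : Finset (Fin s)) (v : Fin s) : Fin n ⊕ Fin s :=
  open scoped Classical in
  if v ∈ S then Sum.inr v else
    if h : ∃ j, C.node v = Node.input j then Sum.inl h.choose else Sum.inr v

theorem leaves_subset' (S : Finset (Fin s)) (lab : Fin s → Finset (Fin s))
    (h1 : ∀ v, v ∉ S → v ∈ lab v ∧ ∀ u, C.Adj v u → u ∈ lab v)
    (h2 : ∀ v, v ∉ S → ∀ u, u ∉ S → C.Adj v u → lab v = lab u) (i : Fin s) (hi : i ∉ S) :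
    C.leaves S i ⊆ (lab i ∩ (S ∪ C.inputs)).image (C.leafOf S) := by
  obtain ⟨i, hs⟩ := i
  induction i using Nat.strong_induction_on with
  | _ i ih =>
    intro w hw
    rw [leaves] at hw
    split at hw
    · next j hj =>
      rw [mem_singleton] at hw
      rw [mem_image]
      refine ⟨⟨i, hs⟩, ?_, ?_⟩
      · simp only [mem_inter, mem_union]
        exact ⟨(h1 _ hi).1, Or.inr ((C.mem_inputs _).2 ⟨j, hj⟩)⟩
      · have hex : ∃ j, C.node ⟨i, hs⟩ = Node.input j := ⟨j, hj⟩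
        rw [leafOf, if_neg hi, dif_pos hex, hw]
        have h3 := hex.choose_spec
        have h4 := h3.symm.trans hj
        injection h4 with h5
        rw [h5]
    · next k hk pred op hj =>
      rw [mem_biUnion] at hw
      obtain ⟨a, _, ha⟩ := hw
      have hadj : C.Adj ⟨i, hs⟩ ⟨pred a, (pred a).2.trans hs⟩ :=
        Or.inl ⟨k, hk, pred, op, hj, a, rfl⟩
      by_cases hS : (⟨pred a, (pred a).2.trans hs⟩ : Fin s) ∈ S
      · rw [if_pos hS, mem_singleton] at ha
        rw [mem_image]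
        refine ⟨⟨pred a, (pred a).2.trans hs⟩, ?_, ?_⟩
        · simp only [mem_inter, mem_union]
          exact ⟨(h1 _ hi).2 _ hadj, Or.inl hS⟩
        · rw [leafOf, if_pos hS, ha]
      · rw [if_neg hS] at ha
        have := ih _ (pred a).2 _ hS ha
        rw [h2 _ hi _ hS hadj]
        exact this

theorem leaves_card' (S : Finset (Fin s)) (lab : Fin s → Finset (Fin s)) (l : ℕ) (hl : 1 ≤ l)
    (h1 : ∀ v, v ∉ S → v ∈ lab v ∧ ∀ u, C.Adj v u → u ∈ lab v)
    (h2 : ∀ v, v ∉ S → ∀ u, u ∉ S → C.Adj v u → lab v = lab u)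
    (h3 : ∀ v, v ∉ S → (lab v ∩ (S ∪ C.inputs)).card ≤ l) (i : Fin s) :
    (C.leaves S i).card ≤ 2 * l := by
  rw [leaves]
  split
  · simp only [card_singleton]; omega
  · next k hk pred op hj =>
    refine le_trans card_biUnion_le ?_
    calc ∑ a : Fin k, (if (⟨pred a, (pred a).2.trans i.2⟩ : Fin s) ∈ S
        then ({Sum.inr ⟨pred a, (pred a).2.trans i.2⟩} : Finset (Fin n ⊕ Fin s))
        else C.leaves S ⟨pred a, (pred a).2.trans i.2⟩).card ≤ ∑ _a : Fin k, l := by
          refine Finset.sum_le_sum ?_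
          intro a _
          by_cases hS : (⟨pred a, (pred a).2.trans i.2⟩ : Fin s) ∈ S
          · rw [if_pos hS, card_singleton]; omega
          · rw [if_neg hS]
            exact (card_le_card (C.leaves_subset' S lab h1 h2 _ hS)).trans
              (card_image_le.trans (h3 _ hS))
      _ = k * l := by simp
      _ ≤ 2 * l := Nat.mul_le_mul_right _ hk

/-- Weighted separators of bounded size. -/
theorem prot_bounded (κ : ℝ) (hκ : 0 ≤ κ) (l : ℕ) (hl : 1 ≤ l) (hκl : 16 * κ ≤ l)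
    {N : ℕ} (hN : 0 < N) (own : Fin n → Fin N) (hsep : C.HasWeightedSeparators (fun _ => κ)) :
    ∃ P : Protocol N n m own, P.Correct C.eval ∧ P.Secure C.eval ∧
      (P.comm : ℝ) ≤ n + N * (m + 8 * κ * n / l) ∧ P.StorageLe (n + (n + m) * 4 ^ l) := by
  have hl0 : (0 : ℝ) < l := by exact_mod_cast hl
  obtain ⟨S, lab, h1, h2, h3⟩ := C.exists_opened 0 (1 / l) κ 1 (1 / 3) le_rfl (by positivity) hκ
    one_pos le_rfl (by rw [Real.rpow_one]; norm_num)
    (by
      rw [zero_add, one_div, inv_mul_le_iff₀ hl0]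
      linarith)
    (fun _ => κ) hsep (by
      intro R D _
      rw [sub_self, Real.rpow_zero, mul_one])
  have hS : (S.card : ℝ) ≤ 8 * κ * n / l := by
    refine h3.trans (le_of_eq ?_)
    field_simp
    ring
  have hS' : S.card ≤ n := by
    have : (S.card : ℝ) ≤ n := by
      refine hS.trans ?_
      rw [div_le_iff₀ hl0]
      have : (0 : ℝ) ≤ n := Nat.cast_nonneg _
      nlinarith
    exact_mod_cast this
  have hlv : ∀ v, (C.leaves S v).card ≤ 2 * l := by
    intro v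
    refine C.leaves_card' S lab l hl (fun v hv => ⟨(h1 v hv).1, (h1 v hv).2.1⟩) h2 ?_ v
    intro v hv
    have := (h1 v hv).2.2
    rw [one_div, inv_mul_le_iff₀ hl0, mul_one] at this
    exact_mod_cast this
  obtain ⟨P, g1, g2, g3, g4⟩ := C.opened hN own S (2 * l) (fun v _ => hlv v) (fun k => hlv _)
  refine ⟨P, g1, g2, ?_, ?_⟩
  · rw [g3]
    push_cast
    have : (0 : ℝ) ≤ N := Nat.cast_nonneg _
    nlinarith
  · intro p
    refine ⟨(g4 p).1, (g4 p).2.trans (Nat.pow_le_pow_right (by norm_num) ?_)⟩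
    have : 2 ^ (2 * l) = 4 ^ l := by rw [pow_mul]; norm_num
    rw [this]
    have := Nat.mul_le_mul_right (4 ^ l) (Nat.add_le_add_right hS' m)
    omega

end Circuit

end Pool.Agent.Work.MP_2ceb02_lc
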