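import Pool.Agent.Work.MP_2ceb02_lc.Cone

/-!
# Separators give small sets of opened nodes
-/

namespace Pool.Agent.Work.MP_2ceb02_lc

open Finset

/-- Hereditary separators: every set `W` of at least two nodes has a part `X` with at most
`σ |W|` elements such that the rest of `W` splits into two sets of at most `2 |W| / 3` nodes with
no edge of the circuit between them. -/
def Circuit.HasSeparators {n m s : ℕ} (C : Circuit n m s) (σ : ℝ → ℝ) : Prop :=
  ∀ W : Finset (Fin s), 2 ≤ W.card → ∃ X A B : Finset (Fin s), X ⊆ W ∧ A ∪ B = W \ X ∧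
    Disjoint A B ∧ (X.card : ℝ) ≤ σ W.card ∧ 3 * A.card ≤ 2 * W.card ∧ 3 * B.card ≤ 2 * W.card ∧
    ∀ a ∈ A, ∀ b ∈ B, ¬ C.Adj a b

namespace Circuit

variable {n m s : ℕ} (C : Circuit n m s)

theorem exists_pieces (L : ℕ) (hL : 1 ≤ L) (σ φ : ℝ → ℝ) (hφ : ∀ a b, 0 ≤ a → a ≤ b → φ a ≤ φ b)
    (h0 : ∀ a, 0 ≤ φ a)
    (hσ : ∀ k : ℕ, L < k → k * φ (2 * k / 3) + σ k ≤ k * φ k)
    (hsep : C.HasSeparators σ) (W : Finset (Fin s)) :
    ∃ S ⊆ W, ∃ lab : Fin s → Finset (Fin s),
      (∀ a ∈ W, a ∉ S → a ∈ lab a ∧ (lab a).card ≤ L) ∧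
      (∀ a ∈ W, a ∉ S → ∀ b ∈ W, b ∉ S → C.Adj a b → lab a = lab b) ∧
      (S.card : ℝ) ≤ W.card * φ W.card := by
  induction' hk : W.card using Nat.strong_induction_on with k ih generalizing W
  by_cases hWL : k ≤ L
  · refine ⟨∅, empty_subset _, fun _ => W, ?_, ?_, ?_⟩
    · intro a ha _
      exact ⟨ha, by simp only; omega⟩
    · intro a _ _ b _ _ _
      rfl
    · simp only [card_empty, Nat.cast_zero]
      exact mul_nonneg (Nat.cast_nonneg _) (h0 _)
  · push Not at hWL
    obtain ⟨X, A, B, hXW, hAB, hdis, hX, hA, hB, hadj⟩ := hsep W (by omega)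
    rw [hk] at hX hA hB
    obtain ⟨SA, hSA, labA, a1, a2, a3⟩ := ih A.card (by omega) A rfl
    obtain ⟨SB, hSB, labB, b1, b2, b3⟩ := ih B.card (by omega) B rfl
    have hAW : A ⊆ W := by
      intro a ha
      have : a ∈ W \ X := by rw [← hAB]; exact mem_union_left _ ha
      exact (mem_sdiff.1 this).1
    have hBW : B ⊆ W := by
      intro a ha
      have : a ∈ W \ X := by rw [← hAB]; exact mem_union_right _ ha
      exact (mem_sdiff.1 this).1
    have hcase : ∀ a ∈ W, a ∉ X ∪ SA ∪ SB → (a ∈ A ∧ a ∉ SA) ∨ (a ∈ B ∧ a ∉ A ∧ a ∉ SB) := by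
      intro a ha hna
      simp only [mem_union, not_or] at hna
      have : a ∈ A ∪ B := by rw [hAB]; exact mem_sdiff.2 ⟨ha, hna.1.1⟩
      rcases mem_union.1 this with h | h
      · exact Or.inl ⟨h, hna.1.2⟩
      · refine Or.inr ⟨h, ?_, hna.2⟩
        intro h'
        exact (Finset.disjoint_left.1 hdis) h' h
    refine ⟨X ∪ SA ∪ SB, ?_, fun a => if a ∈ A then labA a else labB a, ?_, ?_, ?_⟩
    · exact union_subset (union_subset hXW (hSA.trans hAW)) (hSB.trans hBW)
    · intro a ha hna
      beta_reduce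
      rcases hcase a ha hna with ⟨h1, h2⟩ | ⟨h1, h2, h3⟩
      · rw [if_pos h1]; exact a1 a h1 h2
      · rw [if_neg h2]; exact b1 a h1 h3
    · intro a ha hna b hb hnb hab
      beta_reduce
      rcases hcase a ha hna with ⟨h1, h2⟩ | ⟨h1, h2, h3⟩
      · rcases hcase b hb hnb with ⟨g1, g2⟩ | ⟨g1, g2, g3⟩
        · rw [if_pos h1, if_pos g1]; exact a2 a h1 h2 b g1 g2 hab
        · exact absurd hab (hadj a h1 b g1)
      · rcases hcase b hb hnb with ⟨g1, g2⟩ | ⟨g1, g2, g3⟩
        · have : C.Adj b a := hab.symm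
          exact absurd this (hadj b g1 a h1)
        · rw [if_neg h2, if_neg g2]; exact b2 a h1 h3 b g1 g3 hab
    · have hcard : (X ∪ SA ∪ SB).card ≤ X.card + SA.card + SB.card :=
        (card_union_le _ _).trans (Nat.add_le_add_right (card_union_le _ _) _)
      have hcard' : ((X ∪ SA ∪ SB).card : ℝ) ≤ X.card + SA.card + SB.card := by
        exact_mod_cast hcard
      have hsum : A.card + B.card ≤ k := by
        rw [← card_union_of_disjoint hdis, hAB, ← hk]
        exact card_le_card sdiff_subset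
      have hsum' : (A.card : ℝ) + B.card ≤ k := by exact_mod_cast hsum
      have hA' : (A.card : ℝ) ≤ 2 * k / 3 := by
        rw [le_div_iff₀ (by norm_num)]
        have : ((A.card * 3 : ℕ) : ℝ) ≤ ((2 * k : ℕ) : ℝ) := by exact_mod_cast (by omega)
        push_cast at this
        exact this
      have hB' : (B.card : ℝ) ≤ 2 * k / 3 := by
        rw [le_div_iff₀ (by norm_num)]
        have : ((B.card * 3 : ℕ) : ℝ) ≤ ((2 * k : ℕ) : ℝ) := by exact_mod_cast (by omega)
        push_cast at this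
        exact this
      have eA : (A.card : ℝ) * φ A.card ≤ A.card * φ (2 * k / 3) :=
        mul_le_mul_of_nonneg_left (hφ _ _ (Nat.cast_nonneg _) hA') (Nat.cast_nonneg _)
      have eB : (B.card : ℝ) * φ B.card ≤ B.card * φ (2 * k / 3) :=
        mul_le_mul_of_nonneg_left (hφ _ _ (Nat.cast_nonneg _) hB') (Nat.cast_nonneg _)
      have eS : ((A.card : ℝ) + B.card) * φ (2 * k / 3) ≤ k * φ (2 * k / 3) :=
        mul_le_mul_of_nonneg_right hsum' (h0 _)
      have := hσ k hWL
      nlinarith

/-- The immediate neighbourhood of a node. -/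
def direct (i : Fin s) : Finset (Fin n ⊕ Fin s) :=
  match C.node i with
  | .input j => {Sum.inl j}
  | .gate k _ pred _ => (univ : Finset (Fin k)).image
      (fun a => Sum.inr ⟨pred a, (pred a).2.trans i.2⟩)

theorem direct_card (i : Fin s) : (C.direct i).card ≤ 2 := by
  unfold direct
  split
  · simp
  · next k hk pred op hj =>
    refine le_trans card_image_le ?_
    simpa using hk

theorem leaves_subset (S : Finset (Fin s)) (lab : Fin s → Finset (Fin s))
    (h1 : ∀ a, a ∉ S → a ∈ lab a)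
    (h2 : ∀ a, a ∉ S → ∀ b, b ∉ S → C.Adj a b → lab a = lab b) (i : Fin s) (hi : i ∉ S) :
    C.leaves S i ⊆ (lab i).biUnion C.direct := by
  obtain ⟨i, hs⟩ := i
  induction i using Nat.strong_induction_on with
  | _ i ih =>
    intro w hw
    rw [leaves] at hw
    split at hw
    · next j hj =>
      rw [mem_biUnion]
      refine ⟨⟨i, hs⟩, h1 _ hi, ?_⟩
      unfold direct
      rw [hj]
      exact hw
    · next k hk pred op hj =>
      rw [mem_biUnion] at hw
      obtain ⟨a, _, ha⟩ := hw
      by_cases hS : (⟨pred a, (pred a).2.trans hs⟩ : Fin s) ∈ S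
      · rw [if_pos hS] at ha
        rw [mem_biUnion]
        refine ⟨⟨i, hs⟩, h1 _ hi, ?_⟩
        unfold direct
        rw [hj]
        rw [mem_singleton] at ha
        rw [ha]
        exact mem_image_of_mem _ (mem_univ a)
      · rw [if_neg hS] at ha
        have := ih _ (pred a).2 _ hS ha
        have hadj : C.Adj ⟨i, hs⟩ ⟨pred a, (pred a).2.trans hs⟩ :=
          Or.inl ⟨k, hk, pred, op, hj, a, rfl⟩
        rw [h2 _ hi _ hS hadj]
        exact this

theorem leaves_card (S : Finset (Fin s)) (lab : Fin s → Finset (Fin s)) (L : ℕ)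
    (h1 : ∀ a, a ∉ S → a ∈ lab a ∧ (lab a).card ≤ L)
    (h2 : ∀ a, a ∉ S → ∀ b, b ∉ S → C.Adj a b → lab a = lab b) (i : Fin s) :
    (C.leaves S i).card ≤ 4 * L + 2 := by
  rw [leaves]
  split
  · simp only [card_singleton]; omega
  · next k hk pred op hj =>
    refine le_trans card_biUnion_le ?_
    calc ∑ a : Fin k, (if (⟨pred a, (pred a).2.trans i.2⟩ : Fin s) ∈ S
        then ({Sum.inr ⟨pred a, (pred a).2.trans i.2⟩} : Finset (Fin n ⊕ Fin s))
        else C.leaves S ⟨pred a, (pred a).2.trans i.2⟩).card ≤ ∑ _a : Fin k, (2 * L + 1) := by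
          refine Finset.sum_le_sum ?_
          intro a _
          by_cases hS : (⟨pred a, (pred a).2.trans i.2⟩ : Fin s) ∈ S
          · rw [if_pos hS, card_singleton]; omega
          · rw [if_neg hS]
            refine le_trans (card_le_card (C.leaves_subset S lab (fun a ha => (h1 a ha).1) h2 _ hS)) ?_
            refine le_trans card_biUnion_le ?_
            refine le_trans (Finset.sum_le_sum (fun a _ => C.direct_card a)) ?_
            rw [Finset.sum_const, smul_eq_mul]
            have := (h1 _ hS).2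
            omega
      _ = k * (2 * L + 1) := by simp
      _ ≤ 2 * (2 * L + 1) := Nat.mul_le_mul_right _ hk
      _ = 4 * L + 2 := by ring

/-- Opening the nodes of a set whose complement splits into small pieces. -/
theorem protocol_of_pieces {N : ℕ} (hN : 0 < N) (own : Fin n → Fin N) (S : Finset (Fin s))
    (lab : Fin s → Finset (Fin s)) (L : ℕ)
    (h1 : ∀ a, a ∉ S → a ∈ lab a ∧ (lab a).card ≤ L)
    (h2 : ∀ a, a ∉ S → ∀ b, b ∉ S → C.Adj a b → lab a = lab b) :
    ∃ P : Protocol N n m own, P.Correct C.eval ∧ P.Secure C.eval ∧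
      P.comm = n + N * (S.card + m) ∧ P.StorageLe (n + (S.card + m) * 2 ^ (4 * L + 2)) :=
  C.opened hN own S (4 * L + 2) (fun v _ => C.leaves_card S lab L h1 h2 v)
    (fun k => C.leaves_card S lab L h1 h2 _)

end Circuit

end Pool.Agent.Work.MP_2ceb02_lc
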