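import Pool.Agent.Work.MP_2ceb02_lc.Region

/-!
# Tree decompositions give weighted separators
-/

namespace Pool.Agent.Work.MP_2ceb02_lc

open Finset

/-- A rooted tree decomposition of width at most `t` of the underlying graph of a circuit. The
tree has the vertices `0, …, k - 1`, the root `0`, and the parent of `i > 0` is
`parent i < i`. For every node `v` of the circuit the tree vertices whose bags contain `v` form a
subtree: `top v` is the one nearest to the root, and every other one has a parent of the same
kind. -/
structure TreeDec {n m s : ℕ} (C : Circuit n m s) (t : ℕ) where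
  k : ℕ
  bag : ℕ → Finset (Fin s)
  parent : ℕ → ℕ
  parent_lt : ∀ i, 0 < i → parent i < i
  top : Fin s → ℕ
  top_lt : ∀ v, top v < k
  mem_top : ∀ v, v ∈ bag (top v)
  up : ∀ v i, i < k → v ∈ bag i → i ≠ top v → 0 < i ∧ v ∈ bag (parent i)
  edge : ∀ u v, C.Adj u v → ∃ i < k, u ∈ bag i ∧ v ∈ bag i
  width : ∀ i < k, (bag i).card ≤ t + 1

/-- `Below P i j`: the vertex `j` lies in the subtree rooted at `i`. -/
inductive Below (P : ℕ → ℕ) (i : ℕ) : ℕ → Prop
  | refl : Below P i i
  | step {j : ℕ} : 0 < j → Below P i (P j) → Below P i j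

namespace Below

variable {P : ℕ → ℕ} (hP : ∀ i, 0 < i → P i < i)

include hP

theorem le {i j : ℕ} (h : Below P i j) : i ≤ j := by
  induction h with
  | refl => exact le_rfl
  | step hj _ ih => exact ih.trans (hP _ hj).le

theorem zero (j : ℕ) : Below P 0 j := by
  induction j using Nat.strong_induction_on with
  | _ j ih =>
    rcases Nat.eq_zero_or_pos j with rfl | hj
    · exact refl
    · exact step hj (ih _ (hP _ hj))

omit hP in
theorem trans {i j k : ℕ} (h : Below P i j) (h' : Below P j k) : Below P i k := by
  induction h' with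
  | refl => exact h
  | step hj _ ih => exact step hj ih

theorem chain {a b j : ℕ} (ha : Below P a j) (hb : Below P b j) (hab : a ≤ b) :
    Below P a b := by
  induction hb with
  | refl => exact ha
  | step hj hb ih =>
    have h1 := le hP hb
    cases ha with
    | refl => exact absurd (hP _ hj) (by omega)
    | step _ ha => exact ih ha

omit hP in
theorem child {i j : ℕ} (h : Below P i j) (hij : i ≠ j) : ∃ c, 0 < c ∧ P c = i ∧ Below P c j := by
  induction h with
  | refl => exact absurd rfl hij
  | @step j hj h ih =>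
    by_cases h1 : i = P j
    · exact ⟨j, hj, h1.symm, refl⟩
    · obtain ⟨c, c1, c2, c3⟩ := ih h1
      exact ⟨c, c1, c2, step hj c3⟩

omit hP in
theorem pred {a b : ℕ} (h : Below P a b) (hab : a ≠ b) : Below P a (P b) := by
  cases h with
  | refl => exact absurd rfl hab
  | step _ h' => exact h'

theorem child_unique {i j c d : ℕ} (hc0 : 0 < c) (hc : P c = i) (hd0 : 0 < d) (hd : P d = i)
    (hcj : Below P c j) (hdj : Below P d j) : c = d := by
  wlog hcd : c ≤ d generalizing c d
  · exact (this hd0 hd hc0 hc hdj hcj (by omega)).symm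
  have h := chain hP hcj hdj hcd
  cases h with
  | refl => rfl
  | step _ h' =>
    rw [hd] at h'
    have := le hP h'
    have := hP c hc0
    omega

end Below

/-- Grouping. -/
theorem exists_grouping {V : Type*} [DecidableEq V] (W : Finset V) (w : V → ℝ)
    (hw : ∀ v, 0 ≤ w v) (lab : V → ℕ) (tot : ℝ) (htot : ∑ v ∈ W, w v ≤ tot)
    (hclass : ∀ c, ∑ v ∈ W.filter (fun v => lab v = c), w v ≤ tot / 2) :
    ∃ J : Finset ℕ, ∑ v ∈ W.filter (fun v => lab v ∈ J), w v ≤ 2 / 3 * tot ∧
      ∑ v ∈ W.filter (fun v => lab v ∉ J), w v ≤ 2 / 3 * tot := by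
  have htot0 : 0 ≤ tot := le_trans (Finset.sum_nonneg (fun v _ => hw v)) htot
  let f : Finset ℕ → ℝ := fun J => ∑ v ∈ W.filter (fun v => lab v ∈ J), w v
  let 𝒥 : Finset (Finset ℕ) := (W.image lab).powerset.filter (fun J => f J ≤ 2 / 3 * tot)
  have hne : 𝒥.Nonempty := by
    refine ⟨∅, ?_⟩
    simp only [𝒥, f, mem_filter, mem_powerset]
    refine ⟨empty_subset _, ?_⟩
    simp only [notMem_empty, filter_false, sum_empty]
    positivity
  obtain ⟨J, hJ, hmax⟩ := Finset.exists_max_image 𝒥 f hne
  simp only [𝒥, mem_filter, mem_powerset] at hJ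
  refine ⟨J, hJ.2, ?_⟩
  by_contra hB
  push Not at hB
  have hsplit : f J + ∑ v ∈ W.filter (fun v => lab v ∉ J), w v = ∑ v ∈ W, w v :=
    Finset.sum_filter_add_sum_filter_not _ _ _
  have hfJ : f J < 1 / 3 * tot := by linarith
  have htot1 : 0 < tot := by
    have : 0 ≤ f J := Finset.sum_nonneg (fun v _ => hw v)
    linarith
  -- a node outside with positive weight
  obtain ⟨v, hv, hwv⟩ : ∃ v ∈ W.filter (fun v => lab v ∉ J), 0 < w v := by
    by_contra hcon
    push Not at hcon
    have : ∑ v ∈ W.filter (fun v => lab v ∉ J), w v ≤ 0 := Finset.sum_nonpos hcon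
    linarith [mul_nonneg (by norm_num : (0 : ℝ) ≤ 2 / 3) htot0]
  rw [mem_filter] at hv
  set c := lab v with hc
  have hcW : c ∈ W.image lab := mem_image_of_mem _ hv.1
  let g : ℝ := ∑ v ∈ W.filter (fun v => lab v = c), w v
  have hg0 : 0 < g := by
    refine Finset.sum_pos' (fun v _ => hw v) ⟨v, ?_, hwv⟩
    rw [mem_filter]
    exact ⟨hv.1, hc.symm⟩
  have hins : f (insert c J) = f J + g := by
    simp only [f, g]
    rw [← Finset.sum_union]
    · congr 1
      ext u
      simp only [mem_filter, mem_union, mem_insert]
      tauto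
    · rw [Finset.disjoint_left]
      intro u hu hu'
      rw [mem_filter] at hu hu'
      rw [hu'.2] at hu
      exact hv.2 hu.2
  have hsing : f {c} = g := by
    simp only [f, g, mem_singleton]
  have h1 : 2 / 3 * tot < f J + g := by
    by_contra hle
    push Not at hle
    have hin : insert c J ∈ 𝒥 := by
      simp only [𝒥, mem_filter, mem_powerset]
      exact ⟨insert_subset hcW hJ.1, by rw [hins]; exact hle⟩
    have := hmax _ hin
    rw [hins] at this
    linarith
  have hin : {c} ∈ 𝒥 := by
    simp only [𝒥, mem_filter, mem_powerset]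
    refine ⟨singleton_subset_iff.2 hcW, ?_⟩
    rw [hsing]
    have := hclass c
    have hh : g ≤ tot / 2 := this
    linarith
  have := hmax _ hin
  rw [hsing] at this
  linarith

namespace TreeDec

variable {n m s : ℕ} {C : Circuit n m s} {t : ℕ} (T : TreeDec C t)

theorem below_top (v : Fin s) (j : ℕ) (hj : j < T.k) (hv : v ∈ T.bag j) :
    Below T.parent (T.top v) j ∧
      ∀ i, Below T.parent (T.top v) i → Below T.parent i j → v ∈ T.bag i := by
  induction j using Nat.strong_induction_on with
  | _ j ih =>
    by_cases h : j = T.top v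
    · subst h
      refine ⟨Below.refl, fun i h1 h2 => ?_⟩
      have := Below.le T.parent_lt h1
      have := Below.le T.parent_lt h2
      have : i = T.top v := by omega
      rw [this]; exact hv
    · obtain ⟨h0, hp⟩ := T.up v j hj hv h
      obtain ⟨h1, h2⟩ := ih _ (T.parent_lt j h0) ((T.parent_lt j h0).trans hj) hp
      refine ⟨Below.step h0 h1, fun i h3 h4 => ?_⟩
      cases h4 with
      | refl => exact hv
      | step _ h5 => exact h2 i h3 h5

include T in
/-- A tree decomposition of width `t` gives weighted separators with `t + 1` nodes. -/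
theorem hasWeightedSeparators : C.HasWeightedSeparators (fun _ => (t + 1 : ℝ)) := by
  classical
  intro W w hw
  rcases W.eq_empty_or_nonempty with rfl | hWne
  · refine ⟨∅, ∅, ∅, Subset.rfl, by simp, disjoint_empty_left _, ?_, by simp, by simp, ?_⟩
    · simp only [card_empty, Nat.cast_zero]
      positivity
    · intro a ha; simp at ha
  obtain ⟨v₀, hv₀⟩ := hWne
  have hk : 0 < T.k := lt_of_le_of_lt (Nat.zero_le _) (T.top_lt v₀)
  set tot : ℝ := ∑ v ∈ W, w v with htot
  have htot0 : 0 ≤ tot := Finset.sum_nonneg (fun v _ => hw v)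
  let sub : ℕ → ℝ := fun i => ∑ v ∈ W.filter (fun v => Below T.parent i (T.top v)), w v
  have hsub0 : sub 0 = tot := by
    simp only [sub]
    rw [Finset.filter_true_of_mem]
    intro v _
    exact Below.zero T.parent_lt _
  let I : Finset ℕ := (range T.k).filter (fun i => tot / 2 ≤ sub i)
  have hI : I.Nonempty := ⟨0, by
    simp only [I, mem_filter, mem_range]
    exact ⟨hk, by rw [hsub0]; linarith⟩⟩
  set i := I.max' hI with hi
  have hiI : i ∈ I := I.max'_mem hI
  have hik : i < T.k := by
    have := hiI
    simp only [I, mem_filter, mem_range] at this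
    exact this.1
  have hisub : tot / 2 ≤ sub i := by
    have := hiI
    simp only [I, mem_filter, mem_range] at this
    exact this.2
  have hmax : ∀ c, i < c → c < T.k → sub c < tot / 2 := by
    intro c hc hck
    by_contra hcon
    push Not at hcon
    have : c ∈ I := by
      simp only [I, mem_filter, mem_range]
      exact ⟨hck, hcon⟩
    have := I.le_max' c this
    rw [← hi] at this
    omega
  -- the labels
  have hlab : ∀ v : Fin s, ∃ c : ℕ, (¬ Below T.parent i (T.top v) ∧ c = 0) ∨
      (Below T.parent i (T.top v) ∧ i = T.top v ∧ c = 0) ∨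
      (0 < c ∧ T.parent c = i ∧ Below T.parent c (T.top v)) := by
    intro v
    by_cases h : Below T.parent i (T.top v)
    · by_cases h' : i = T.top v
      · exact ⟨0, Or.inr (Or.inl ⟨h, h', rfl⟩)⟩
      · obtain ⟨c, c1, c2, c3⟩ := h.child h'
        exact ⟨c, Or.inr (Or.inr ⟨c1, c2, c3⟩)⟩
    · exact ⟨0, Or.inl ⟨h, rfl⟩⟩
  choose lab hlab using hlab
  set X : Finset (Fin s) := W ∩ T.bag i with hX
  have hXi : ∀ v ∈ W \ X, v ∉ T.bag i := by
    intro v hv hvi
    rw [mem_sdiff] at hv
    exact hv.2 (mem_inter.2 ⟨hv.1, hvi⟩)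
  have hlab' : ∀ v ∈ W \ X, (¬ Below T.parent i (T.top v) ∧ lab v = 0) ∨
      (0 < lab v ∧ T.parent (lab v) = i ∧ Below T.parent (lab v) (T.top v)) := by
    intro v hv
    rcases hlab v with h | h | h
    · exact Or.inl h
    · exfalso
      apply hXi v hv
      rw [h.2.1]; exact T.mem_top v
    · exact Or.inr h
  -- adjacent nodes have the same label
  have hadj1 : ∀ u ∈ W \ X, ∀ v ∈ W \ X, C.Adj u v → 0 < lab u → lab v = lab u := by
    intro u hu v hv huv hpos
    obtain ⟨j, hj, huj, hvj⟩ := T.edge u v huv
    rcases hlab' u hu with h | ⟨c1, c2, c3⟩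
    · omega
    obtain ⟨bu, _⟩ := T.below_top u j hj huj
    obtain ⟨bv, pv⟩ := T.below_top v j hj hvj
    have hcj : Below T.parent (lab u) j := c3.trans bu
    by_cases hle : lab u ≤ T.top v
    · have h1 : Below T.parent (lab u) (T.top v) := Below.chain T.parent_lt hcj bv hle
      rcases hlab' v hv with h | ⟨d1, d2, d3⟩
      · exfalso
        apply h.1
        refine Below.trans ?_ h1
        exact Below.step c1 (by rw [c2]; exact Below.refl)
      · exact Below.child_unique T.parent_lt d1 d2 c1 c2 d3 h1
    · exfalso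
      push Not at hle
      have h1 : Below T.parent (T.top v) (lab u) := Below.chain T.parent_lt bv hcj hle.le
      have h2 : Below T.parent (T.top v) i := by
        have h3 := h1.pred (by omega)
        rwa [c2] at h3
      have h3 : Below T.parent i j := by
        refine Below.trans ?_ hcj
        exact Below.step c1 (by rw [c2]; exact Below.refl)
      exact hXi v hv (pv i h2 h3)
  have hadj : ∀ u ∈ W \ X, ∀ v ∈ W \ X, C.Adj u v → lab u = lab v := by
    intro u hu v hv huv
    rcases Nat.eq_zero_or_pos (lab u) with h | h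
    · rcases Nat.eq_zero_or_pos (lab v) with h' | h'
      · rw [h, h']
      · exact hadj1 v hv u hu huv.symm h'
    · exact (hadj1 u hu v hv huv h).symm
  have hWX : ∑ v ∈ W \ X, w v ≤ tot :=
    Finset.sum_le_sum_of_subset_of_nonneg sdiff_subset (fun v _ _ => hw v)
  have hclass : ∀ c, ∑ v ∈ (W \ X).filter (fun v => lab v = c), w v ≤ tot / 2 := by
    intro c
    rcases Nat.eq_zero_or_pos c with rfl | hc
    · have h1 : (W \ X).filter (fun v => lab v = 0) ⊆
          W.filter (fun v => ¬ Below T.parent i (T.top v)) := by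
        intro v hv
        rw [mem_filter] at hv ⊢
        refine ⟨(mem_sdiff.1 hv.1).1, ?_⟩
        rcases hlab' v hv.1 with h | h
        · exact h.1
        · omega
      have h2 := Finset.sum_le_sum_of_subset_of_nonneg h1 (f := w) (fun v _ _ => hw v)
      have h3 : sub i + ∑ v ∈ W.filter (fun v => ¬ Below T.parent i (T.top v)), w v = tot :=
        Finset.sum_filter_add_sum_filter_not _ _ _
      linarith
    · by_cases hex : ((W \ X).filter (fun v => lab v = c)).Nonempty
      · obtain ⟨v, hv⟩ := hex
        rw [mem_filter] at hv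
        have h1 : T.parent c = i ∧ Below T.parent c (T.top v) := by
          rcases hlab' v hv.1 with h | h
          · omega
          · rw [← hv.2]; exact h.2
        have hic : i < c := by
          rw [← h1.1]; exact T.parent_lt c hc
        have hck : c < T.k := lt_of_le_of_lt (Below.le T.parent_lt h1.2) (T.top_lt v)
        have h2 : (W \ X).filter (fun v => lab v = c) ⊆
            W.filter (fun v => Below T.parent c (T.top v)) := by
          intro u hu
          rw [mem_filter] at hu ⊢
          refine ⟨(mem_sdiff.1 hu.1).1, ?_⟩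
          rcases hlab' u hu.1 with h | h
          · omega
          · rw [← hu.2]; exact h.2.2
        have h3 := Finset.sum_le_sum_of_subset_of_nonneg h2 (f := w) (fun v _ _ => hw v)
        have h4 := hmax c hic hck
        have h5 : sub c = ∑ v ∈ W.filter (fun v => Below T.parent c (T.top v)), w v := rfl
        linarith
      · rw [not_nonempty_iff_eq_empty] at hex
        rw [hex, sum_empty]
        linarith
  obtain ⟨J, hJ1, hJ2⟩ := exists_grouping (W \ X) w hw lab tot hWX hclass
  refine ⟨X, (W \ X).filter (fun v => lab v ∈ J), (W \ X).filter (fun v => lab v ∉ J),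
    inter_subset_left, Finset.filter_union_filter_not_eq _ _,
    Finset.disjoint_filter_filter_not _ _ _, ?_, hJ1, hJ2, ?_⟩
  · have h1 : X.card ≤ t + 1 := (card_le_card inter_subset_right).trans (T.width i hik)
    show (X.card : ℝ) ≤ (t : ℝ) + 1
    exact_mod_cast h1
  · intro a ha b hb hab
    rw [mem_filter] at ha hb
    rw [hadj a ha.1 b hb.1 hab] at ha
    exact hb.2 ha.2

end TreeDec

end Pool.Agent.Work.MP_2ceb02_lc
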