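import Pool.Agent.Work.MP_2ceb02_lc.Power

/-!
# Hereditary separators are weighted separators
-/

namespace Pool.Agent.Work.MP_2ceb02_lc

open Finset

namespace Circuit

variable {n m s : ℕ} (C : Circuit n m s)

theorem weighted_aux (c c' e : ℝ) (he1 : e < 1) (hc' : 1 ≤ c')
    (hcc : c ≤ c' * (1 - (2 / 3 : ℝ) ^ (1 - e)))
    (hsep : C.HasSeparators (fun k => c * k ^ (1 - e)))
    (w : Fin s → ℝ) (hw : ∀ v, 0 ≤ w v) (t : ℝ) (ht : 0 ≤ t) (k : ℕ) :
    ∀ H : Finset (Fin s), H.card = k → ∑ v ∈ H, w v ≤ t →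
      ∃ X A B : Finset (Fin s), X ⊆ H ∧ A ∪ B = H \ X ∧ Disjoint A B ∧
        (X.card : ℝ) ≤ c' * (k : ℝ) ^ (1 - e) ∧
        ∑ v ∈ A, w v ≤ 2 / 3 * t ∧ ∑ v ∈ B, w v ≤ 2 / 3 * t ∧
        ∀ a ∈ A, ∀ b ∈ B, ¬ C.Adj a b := by
  have h1e : 0 < 1 - e := by linarith
  induction k using Nat.strong_induction_on with
  | _ k ih =>
    intro H hk hHt
    have hk0 : 0 ≤ c' * (k : ℝ) ^ (1 - e) := by positivity
    by_cases hlight : ∑ v ∈ H, w v ≤ 2 / 3 * t
    · refine ⟨∅, H, ∅, empty_subset _, by simp, disjoint_empty_right _, ?_, hlight, ?_, ?_⟩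
      · simpa using hk0
      · simp only [sum_empty]; positivity
      · intro a _ b hb; simp at hb
    push Not at hlight
    have hH0 : H.card ≠ 0 := by
      intro h
      rw [card_eq_zero] at h
      rw [h, sum_empty] at hlight
      linarith
    by_cases h1 : H.card = 1
    · refine ⟨H, ∅, ∅, Subset.rfl, by simp, disjoint_empty_left _, ?_, ?_, ?_, ?_⟩
      · rw [h1, ← hk, h1]
        simp only [Nat.cast_one, Real.one_rpow, mul_one]
        exact hc'
      · simp only [sum_empty]; positivity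
      · simp only [sum_empty]; positivity
      · intro a ha; simp at ha
    have hsize : 2 ≤ H.card := by omega
    -- one step, with the heavy side first
    have step : ∀ X A B : Finset (Fin s), X ⊆ H → A ∪ B = H \ X → Disjoint A B →
        (X.card : ℝ) ≤ c * (k : ℝ) ^ (1 - e) → 3 * A.card ≤ 2 * k →
        (∀ a ∈ A, ∀ b ∈ B, ¬ C.Adj a b) → 2 / 3 * t < ∑ v ∈ A, w v →
        ∃ X A B : Finset (Fin s), X ⊆ H ∧ A ∪ B = H \ X ∧ Disjoint A B ∧
        (X.card : ℝ) ≤ c' * (k : ℝ) ^ (1 - e) ∧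
        ∑ v ∈ A, w v ≤ 2 / 3 * t ∧ ∑ v ∈ B, w v ≤ 2 / 3 * t ∧
        ∀ a ∈ A, ∀ b ∈ B, ¬ C.Adj a b := by
      intro X A B hXH hAB hdis hX hA hadj hheavy
      have hAH : A ⊆ H \ X := by rw [← hAB]; exact subset_union_left
      have hBH : B ⊆ H \ X := by rw [← hAB]; exact subset_union_right
      have hsum : ∑ v ∈ A, w v + ∑ v ∈ B, w v ≤ t := by
        rw [← Finset.sum_union hdis, hAB]
        exact le_trans (Finset.sum_le_sum_of_subset_of_nonneg sdiff_subset
          (fun v _ _ => hw v)) hHt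
      have hB3 : ∑ v ∈ B, w v < 1 / 3 * t := by linarith
      have hB0 : 0 ≤ ∑ v ∈ B, w v := Finset.sum_nonneg (fun v _ => hw v)
      have hAt : ∑ v ∈ A, w v ≤ t := by linarith
      obtain ⟨X', A', B', h1, h2, h3, h4, h5, h6, h7⟩ := ih A.card (by omega) A rfl hAt
      have hA'A : A' ⊆ A \ X' := by rw [← h2]; exact subset_union_left
      have hB'A : B' ⊆ A \ X' := by rw [← h2]; exact subset_union_right
      have hcard : ((X ∪ X').card : ℝ) ≤ c' * (k : ℝ) ^ (1 - e) := by
        have e1 : ((X ∪ X').card : ℝ) ≤ X.card + X'.card := by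
          exact_mod_cast card_union_le _ _
        have e2 : (A.card : ℝ) ≤ 2 / 3 * k := by
          have : ((3 * A.card : ℕ) : ℝ) ≤ ((2 * k : ℕ) : ℝ) := by exact_mod_cast hA
          push_cast at this
          linarith
        have e3 : (A.card : ℝ) ^ (1 - e) ≤ (2 / 3 : ℝ) ^ (1 - e) * (k : ℝ) ^ (1 - e) := by
          rw [← Real.mul_rpow (by norm_num) (Nat.cast_nonneg _)]
          exact Real.rpow_le_rpow (Nat.cast_nonneg _) e2 h1e.le
        have e4 : c' * (A.card : ℝ) ^ (1 - e) ≤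
            c' * ((2 / 3 : ℝ) ^ (1 - e) * (k : ℝ) ^ (1 - e)) :=
          mul_le_mul_of_nonneg_left e3 (by linarith)
        have e5 : c * (k : ℝ) ^ (1 - e) ≤
            c' * (1 - (2 / 3 : ℝ) ^ (1 - e)) * (k : ℝ) ^ (1 - e) :=
          mul_le_mul_of_nonneg_right hcc (Real.rpow_nonneg (Nat.cast_nonneg _) _)
        nlinarith
      have hXsub : X ∪ X' ⊆ H :=
        union_subset hXH ((h1.trans hAH).trans sdiff_subset)
      have hABdisj : ∀ v ∈ A, v ∉ B := fun v hv => Finset.disjoint_left.1 hdis hv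
      have hAX : ∀ v ∈ A, v ∉ X := fun v hv => (mem_sdiff.1 (hAH hv)).2
      have hBX : ∀ v ∈ B, v ∉ X := fun v hv => (mem_sdiff.1 (hBH hv)).2
      have hpart : ∀ v, v ∈ H \ (X ∪ X') ↔ v ∈ A' ∨ v ∈ B' ∨ v ∈ B := by
        intro v
        have g1 : v ∈ A ∪ B ↔ v ∈ H \ X := by rw [hAB]
        have g2 : v ∈ A' ∪ B' ↔ v ∈ A \ X' := by rw [h2]
        have g3 := @h1 v
        have g4 := hABdisj v
        simp only [mem_union, mem_sdiff, not_or] at g1 g2 ⊢
        tauto
      have nA'B : ∀ a ∈ A', ∀ b ∈ B, ¬ C.Adj a b := fun a ha b hb =>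
        hadj a (mem_sdiff.1 (hA'A ha)).1 b hb
      have nB'B : ∀ a ∈ B', ∀ b ∈ B, ¬ C.Adj a b := fun a ha b hb =>
        hadj a (mem_sdiff.1 (hB'A ha)).1 b hb
      have dA'B : Disjoint A' B := by
        rw [Finset.disjoint_left]
        exact fun v hv => hABdisj v (mem_sdiff.1 (hA'A hv)).1
      have dB'B : Disjoint B' B := by
        rw [Finset.disjoint_left]
        exact fun v hv => hABdisj v (mem_sdiff.1 (hB'A hv)).1
      have hsum3 : ∑ v ∈ A', w v + ∑ v ∈ B', w v + ∑ v ∈ B, w v ≤ t := by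
        have : ∑ v ∈ A', w v + ∑ v ∈ B', w v ≤ ∑ v ∈ A, w v := by
          rw [← Finset.sum_union h3, h2]
          exact Finset.sum_le_sum_of_subset_of_nonneg sdiff_subset (fun v _ _ => hw v)
        linarith
      have nn1 : 0 ≤ ∑ v ∈ A', w v := Finset.sum_nonneg (fun v _ => hw v)
      have nn2 : 0 ≤ ∑ v ∈ B', w v := Finset.sum_nonneg (fun v _ => hw v)
      by_cases c1 : 1 / 3 * t ≤ ∑ v ∈ A', w v
      · refine ⟨X ∪ X', A', B' ∪ B, hXsub, ?_, ?_, hcard, h5, ?_, ?_⟩
        · ext v; rw [hpart v]; simp only [mem_union]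
        · rw [Finset.disjoint_union_right]; exact ⟨h3, dA'B⟩
        · rw [Finset.sum_union dB'B]; linarith
        · intro a ha b hb
          rcases mem_union.1 hb with hb | hb
          · exact h7 a ha b hb
          · exact nA'B a ha b hb
      · by_cases c2 : 1 / 3 * t ≤ ∑ v ∈ B', w v
        · refine ⟨X ∪ X', B', A' ∪ B, hXsub, ?_, ?_, hcard, h6, ?_, ?_⟩
          · ext v; rw [hpart v]; simp only [mem_union]; tauto
          · rw [Finset.disjoint_union_right]; exact ⟨h3.symm, dB'B⟩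
          · rw [Finset.sum_union dA'B]; linarith
          · intro a ha b hb
            rcases mem_union.1 hb with hb | hb
            · exact fun h => h7 b hb a ha h.symm
            · exact nB'B a ha b hb
        · push Not at c1 c2
          refine ⟨X ∪ X', A' ∪ B', B, hXsub, ?_, ?_, hcard, ?_, ?_, ?_⟩
          · ext v; rw [hpart v]; simp only [mem_union]; tauto
          · rw [Finset.disjoint_union_left]; exact ⟨dA'B, dB'B⟩
          · rw [Finset.sum_union h3]; linarith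
          · linarith
          · intro a ha b hb
            rcases mem_union.1 ha with ha | ha
            · exact nA'B a ha b hb
            · exact nB'B a ha b hb
    obtain ⟨X, A, B, hXH, hAB, hdis, hX, hA, hB, hadj⟩ := hsep H hsize
    rw [hk] at hX hA hB
    by_cases hA1 : ∑ v ∈ A, w v ≤ 2 / 3 * t
    · by_cases hB1 : ∑ v ∈ B, w v ≤ 2 / 3 * t
      · refine ⟨X, A, B, hXH, hAB, hdis, hX.trans ?_, hA1, hB1, hadj⟩
        apply mul_le_mul_of_nonneg_right _ (Real.rpow_nonneg (Nat.cast_nonneg _) _)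
        have : 0 ≤ (2 / 3 : ℝ) ^ (1 - e) := by positivity
        nlinarith
      · push Not at hB1
        exact step X B A hXH (by rw [union_comm]; exact hAB) hdis.symm hX hB
          (fun a ha b hb h => hadj b hb a ha h.symm) hB1
    · push Not at hA1
      exact step X A B hXH hAB hdis hX hA hadj hA1

theorem HasSeparators.weighted (c e : ℝ) (hc : 0 ≤ c) (he1 : e < 1)
    (hsep : C.HasSeparators (fun k => c * k ^ (1 - e))) :
    C.HasWeightedSeparators (fun k => (c / (1 - (2 / 3 : ℝ) ^ (1 - e)) + 1) * k ^ (1 - e)) := by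
  have h1 : (2 / 3 : ℝ) ^ (1 - e) < 1 :=
    Real.rpow_lt_one (by norm_num) (by norm_num) (by linarith)
  have h2 : 0 < 1 - (2 / 3 : ℝ) ^ (1 - e) := by linarith
  have h3 : 0 ≤ c / (1 - (2 / 3 : ℝ) ^ (1 - e)) := by positivity
  intro W w hw
  refine C.weighted_aux c (c / (1 - (2 / 3 : ℝ) ^ (1 - e)) + 1) e he1 (by linarith) ?_ hsep w hw
    (∑ v ∈ W, w v) (Finset.sum_nonneg (fun v _ => hw v)) W.card W rfl le_rfl
  rw [add_mul, div_mul_cancel₀ _ h2.ne']
  linarith

/-- Power type separators (unweighted). -/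
theorem prot_separators (c e : ℝ) (hc : 0 ≤ c) (he : 0 < e) (he1 : e < 1) : ∃ K : ℝ, 0 ≤ K ∧
    ∀ (N n m s : ℕ), 0 < N → 3 ≤ s → ∀ (own : Fin n → Fin N) (C : Circuit n m s),
      C.HasSeparators (fun k => c * k ^ (1 - e)) →
      C.Prot N own (K * (n + s / (Real.log s) ^ (e / (1 - e)))) := by
  have h1 : (2 / 3 : ℝ) ^ (1 - e) < 1 :=
    Real.rpow_lt_one (by norm_num) (by norm_num) (by linarith)
  have h2 : 0 < 1 - (2 / 3 : ℝ) ^ (1 - e) := by linarith
  obtain ⟨K, hK, H⟩ := prot_weighted (c / (1 - (2 / 3 : ℝ) ^ (1 - e)) + 1) e (by positivity)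
    he he1
  exact ⟨K, hK, fun N n m s hN hs own C hsep =>
    H N n m s hN hs own C (HasSeparators.weighted C c e hc he1 hsep)⟩

end Circuit

end Pool.Agent.Work.MP_2ceb02_lc
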